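import Pool.Agent.H31.CN.T3

/-!
# The polynomial functional on a square
-/

set_option autoImplicit false

open MeasureTheory Set Filter

namespace Pool.Agent.H39.CN

open Pool.Agent.H31.CN

/-! ### families of numbers -/

/-- binomial convolution of families -/
noncomputable def cv (f g : ℕ → ℕ → ℝ) (i j : ℕ) : ℝ :=
  ∑ a ∈ Finset.range (i + 1), ∑ b ∈ Finset.range (j + 1),
    (i.choose a : ℝ) * (j.choose b) * (f a b * g (i - a) (j - b))

/-- closeness of families -/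
def CF (C S ε : ℝ) (f f₀ : ℕ → ℕ → ℝ) : Prop :=
  ∀ i j, i + j ≤ 3 → |f i j - f₀ i j| ≤ C * S * ε ∧ |f₀ i j| ≤ C * S

lemma mul_close {C₁ C₂ S₁ S₂ ε x x₀ y y₀ : ℝ} (hC₁ : 0 ≤ C₁) (hC₂ : 0 ≤ C₂) (hS₁ : 0 ≤ S₁)
    (hS₂ : 0 ≤ S₂) (hε : 0 ≤ ε) (hε2 : ε ≤ 2) (hx : |x - x₀| ≤ C₁ * S₁ * ε)
    (hx0 : |x₀| ≤ C₁ * S₁) (hy : |y - y₀| ≤ C₂ * S₂ * ε) (hy0 : |y₀| ≤ C₂ * S₂) :
    |x * y - x₀ * y₀| ≤ 4 * (C₁ * C₂) * (S₁ * S₂) * ε ∧
      |x₀ * y₀| ≤ 4 * (C₁ * C₂) * (S₁ * S₂) := by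
  have hA : 0 ≤ C₁ * S₁ := by positivity
  have hB : 0 ≤ C₂ * S₂ := by positivity
  have hy1 : |y| ≤ C₂ * S₂ * 3 := by
    have h1 : |y| ≤ |y - y₀| + |y₀| := by
      have := abs_add_le (y - y₀) y₀
      rwa [sub_add_cancel] at this
    have h2 : C₂ * S₂ * ε ≤ C₂ * S₂ * 2 := mul_le_mul_of_nonneg_left hε2 hB
    linarith
  constructor
  · have h1 : x * y - x₀ * y₀ = (x - x₀) * y + x₀ * (y - y₀) := by ring
    rw [h1]
    calc |(x - x₀) * y + x₀ * (y - y₀)| ≤ |(x - x₀) * y| + |x₀ * (y - y₀)| := abs_add_le _ _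
      _ = |x - x₀| * |y| + |x₀| * |y - y₀| := by rw [abs_mul, abs_mul]
      _ ≤ (C₁ * S₁ * ε) * (C₂ * S₂ * 3) + (C₁ * S₁) * (C₂ * S₂ * ε) := by
          apply add_le_add
          · exact mul_le_mul hx hy1 (abs_nonneg _) (by positivity)
          · exact mul_le_mul hx0 hy (abs_nonneg _) hA
      _ = _ := by ring
  · rw [abs_mul]
    have h1 : |x₀| * |y₀| ≤ (C₁ * S₁) * (C₂ * S₂) := mul_le_mul hx0 hy0 (abs_nonneg _) hA
    have h2 : 0 ≤ (C₁ * S₁) * (C₂ * S₂) := by positivity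
    calc |x₀| * |y₀| ≤ (C₁ * S₁) * (C₂ * S₂) := h1
      _ ≤ 4 * ((C₁ * S₁) * (C₂ * S₂)) := by linarith
      _ = _ := by ring

lemma choose_sum (i j : ℕ) : ∑ a ∈ Finset.range (i + 1), ∑ b ∈ Finset.range (j + 1),
    (i.choose a : ℝ) * (j.choose b) = 2 ^ (i + j) := by
  have h1 : ∀ n : ℕ, ∑ a ∈ Finset.range (n + 1), (n.choose a : ℝ) = 2 ^ n := by
    intro n
    exact_mod_cast Nat.sum_range_choose n
  simp_rw [← Finset.mul_sum, ← Finset.sum_mul, h1]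
  rw [pow_add]

lemma cv_close {C₁ C₂ S₁ S₂ ε : ℝ} {f f₀ g g₀ : ℕ → ℕ → ℝ} (hC₁ : 0 ≤ C₁) (hC₂ : 0 ≤ C₂)
    (hS₁ : 0 ≤ S₁) (hS₂ : 0 ≤ S₂) (hε : 0 ≤ ε) (hε2 : ε ≤ 2) (hf : CF C₁ S₁ ε f f₀)
    (hg : CF C₂ S₂ ε g g₀) : CF (32 * (C₁ * C₂)) (S₁ * S₂) ε (cv f g) (cv f₀ g₀) := by
  intro i j hij
  have hpow : (2 : ℝ) ^ (i + j) ≤ 8 := by
    calc (2 : ℝ) ^ (i + j) ≤ 2 ^ 3 := pow_le_pow_right₀ (by norm_num) hij
      _ = 8 := by norm_num
  have hP : 0 ≤ 4 * (C₁ * C₂) * (S₁ * S₂) := by positivity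
  have key : ∀ a ∈ Finset.range (i + 1), ∀ b ∈ Finset.range (j + 1),
      |f a b * g (i - a) (j - b) - f₀ a b * g₀ (i - a) (j - b)| ≤
        4 * (C₁ * C₂) * (S₁ * S₂) * ε ∧
      |f₀ a b * g₀ (i - a) (j - b)| ≤ 4 * (C₁ * C₂) * (S₁ * S₂) := by
    intro a ha b hb
    rw [Finset.mem_range] at ha hb
    obtain ⟨h1, h2⟩ := hf a b (by omega)
    obtain ⟨h3, h4⟩ := hg (i - a) (j - b) (by omega)
    exact mul_close hC₁ hC₂ hS₁ hS₂ hε hε2 h1 h2 h3 h4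
  constructor
  · unfold cv
    rw [← Finset.sum_sub_distrib]
    simp_rw [← Finset.sum_sub_distrib, ← mul_sub]
    calc _ ≤ ∑ a ∈ Finset.range (i + 1), ∑ b ∈ Finset.range (j + 1),
          (i.choose a : ℝ) * (j.choose b) * (4 * (C₁ * C₂) * (S₁ * S₂) * ε) := by
          refine (Finset.abs_sum_le_sum_abs _ _).trans (Finset.sum_le_sum fun a ha => ?_)
          refine (Finset.abs_sum_le_sum_abs _ _).trans (Finset.sum_le_sum fun b hb => ?_)
          rw [abs_mul, abs_of_nonneg (by positivity : (0 : ℝ) ≤ (i.choose a : ℝ) * (j.choose b))]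
          exact mul_le_mul_of_nonneg_left (key a ha b hb).1 (by positivity)
      _ = 2 ^ (i + j) * (4 * (C₁ * C₂) * (S₁ * S₂) * ε) := by
          simp_rw [← Finset.sum_mul]
          rw [choose_sum]
      _ ≤ 8 * (4 * (C₁ * C₂) * (S₁ * S₂) * ε) :=
          mul_le_mul_of_nonneg_right hpow (by positivity)
      _ = _ := by ring
  · unfold cv
    calc _ ≤ ∑ a ∈ Finset.range (i + 1), ∑ b ∈ Finset.range (j + 1),
          (i.choose a : ℝ) * (j.choose b) * (4 * (C₁ * C₂) * (S₁ * S₂)) := by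
          refine (Finset.abs_sum_le_sum_abs _ _).trans (Finset.sum_le_sum fun a ha => ?_)
          refine (Finset.abs_sum_le_sum_abs _ _).trans (Finset.sum_le_sum fun b hb => ?_)
          rw [abs_mul, abs_of_nonneg (by positivity : (0 : ℝ) ≤ (i.choose a : ℝ) * (j.choose b))]
          exact mul_le_mul_of_nonneg_left (key a ha b hb).2 (by positivity)
      _ = 2 ^ (i + j) * (4 * (C₁ * C₂) * (S₁ * S₂)) := by
          simp_rw [← Finset.sum_mul]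
          rw [choose_sum]
      _ ≤ 8 * (4 * (C₁ * C₂) * (S₁ * S₂)) := mul_le_mul_of_nonneg_right hpow hP
      _ = _ := by ring

/-! ### normalised moments -/

/-- normalised moments -/
noncomputable def nm (ε : ℝ) (r : GR) (i j : ℕ) : ℝ := ε ^ (i + j) * mo i j r

lemma nm_mul (hMOM : T_MOM) (ε : ℝ) (r s : GR) : nm ε (r * s) = cv (nm ε r) (nm ε s) := by
  funext i j
  unfold nm cv
  rw [hMOM, Finset.mul_sum]
  refine Finset.sum_congr rfl fun a ha => ?_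
  rw [Finset.mul_sum]
  refine Finset.sum_congr rfl fun b hb => ?_
  rw [Finset.mem_range] at ha hb
  have h1 : ε ^ (i + j) = ε ^ (a + b) * ε ^ (i - a + (j - b)) := by
    rw [← pow_add]
    congr 1
    omega
  rw [h1]
  ring

lemma cv_smul (c d : ℝ) (f g : ℕ → ℕ → ℝ) :
    cv (fun i j => c * f i j) (fun i j => d * g i j) = fun i j => c * d * cv f g i j := by
  funext i j
  unfold cv
  rw [Finset.mul_sum]
  refine Finset.sum_congr rfl fun a _ => ?_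
  rw [Finset.mul_sum]
  refine Finset.sum_congr rfl fun b _ => ?_
  ring

/-! ### functions of two variables near `(κ, 0)` -/

/-- Lipschitz at `(κ, 0)` -/
def Good (κ K : ℝ) (F : ℝ → ℝ → ℝ) : Prop :=
  ∃ C : ℝ, 0 ≤ C ∧ |F κ 0| ≤ C ∧ ∀ x ε : ℝ, 0 ≤ ε → ε ≤ 2 → |x - κ| ≤ K * ε →
    |F x ε - F κ 0| ≤ C * ε

lemma Good.const (κ K c : ℝ) : Good κ K (fun _ _ => c) :=
  ⟨|c|, abs_nonneg _, le_rfl, fun x ε h1 _ _ => by
    simp only [sub_self, abs_zero]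
    positivity⟩

lemma Good.fst (κ K : ℝ) (hK : 0 ≤ K) : Good κ K (fun x _ => x) :=
  ⟨|κ| + K, by positivity, by linarith, fun x ε h1 _ h3 => by
    refine h3.trans (mul_le_mul_of_nonneg_right ?_ h1)
    linarith [abs_nonneg κ]⟩

lemma Good.snd (κ K : ℝ) : Good κ K (fun _ ε => ε) :=
  ⟨1, by norm_num, by simp, fun x ε h1 _ _ => by
    rw [sub_zero, abs_of_nonneg h1, one_mul]⟩

lemma Good.add {κ K : ℝ} {F G : ℝ → ℝ → ℝ} (hF : Good κ K F) (hG : Good κ K G) :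
    Good κ K (fun x ε => F x ε + G x ε) := by
  obtain ⟨C, h0, h1, h2⟩ := hF
  obtain ⟨D, k0, k1, k2⟩ := hG
  refine ⟨C + D, by positivity, ?_, fun x ε e1 e2 e3 => ?_⟩
  · exact (abs_add_le _ _).trans (add_le_add h1 k1)
  · have e : F x ε + G x ε - (F κ 0 + G κ 0) = (F x ε - F κ 0) + (G x ε - G κ 0) := by ring
    rw [e]
    refine (abs_add_le _ _).trans ?_
    have := h2 x ε e1 e2 e3
    have := k2 x ε e1 e2 e3
    linarith

lemma Good.mul {κ K : ℝ} {F G : ℝ → ℝ → ℝ} (hF : Good κ K F) (hG : Good κ K G) :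
    Good κ K (fun x ε => F x ε * G x ε) := by
  obtain ⟨C, h0, h1, h2⟩ := hF
  obtain ⟨D, k0, k1, k2⟩ := hG
  refine ⟨4 * (C * D) * (1 * 1), by positivity, ?_, fun x ε e1 e2 e3 => ?_⟩
  · exact (mul_close (ε := 0) h0 k0 zero_le_one zero_le_one le_rfl (by norm_num)
      (x := F κ 0) (y := G κ 0) (by simp) (by simpa using h1) (by simp) (by simpa using k1)).2
  · exact (mul_close h0 k0 zero_le_one zero_le_one e1 e2
      (by simpa using h2 x ε e1 e2 e3) (by simpa using h1) (by simpa using k2 x ε e1 e2 e3)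
      (by simpa using k1)).1

lemma Good.neg {κ K : ℝ} {F : ℝ → ℝ → ℝ} (hF : Good κ K F) :
    Good κ K (fun x ε => -F x ε) := by
  obtain ⟨C, h0, h1, h2⟩ := hF
  refine ⟨C, h0, by rwa [abs_neg], fun x ε e1 e2 e3 => ?_⟩
  have e : -F x ε - -F κ 0 = -(F x ε - F κ 0) := by ring
  rw [e, abs_neg]
  exact h2 x ε e1 e2 e3

lemma Good.sub {κ K : ℝ} {F G : ℝ → ℝ → ℝ} (hF : Good κ K F) (hG : Good κ K G) :
    Good κ K (fun x ε => F x ε - G x ε) := by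
  have := hF.add hG.neg
  simpa [sub_eq_add_neg] using this

lemma Good.pow {κ K : ℝ} {F : ℝ → ℝ → ℝ} (hF : Good κ K F) (n : ℕ) :
    Good κ K (fun x ε => F x ε ^ n) := by
  induction n with
  | zero => simpa using Good.const κ K 1
  | succ n ih =>
    have := ih.mul hF
    simpa [pow_succ] using this

/-- the functional in terms of moments -/
lemma lin_PP (a₁ a₀ b₂ b₁ b₀ lam : ℝ) (r : GR) :
    lin (fun v => PP a₁ a₀ b₂ b₁ b₀ (lam - v.1) (lam - v.2)) r =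
      ((lam + c0) * (lam ^ 2 / 4 + a₁ * lam + a₀) -
        (lam ^ 3 / 12 + b₂ * lam ^ 2 + b₁ * lam + b₀)) * mo 0 0 r +
      (-(lam ^ 2 / 4 + a₁ * lam + a₀)) * mo 1 0 r +
      (-(lam ^ 2) / 4 + (2 * b₂ - a₁ - c0 / 2) * lam + (b₁ - a₁ * c0)) * mo 0 1 r +
      (lam / 2 + a₁) * mo 1 1 r + (c0 / 4 - b₂) * mo 0 2 r + (-(1 / 4)) * mo 1 2 r +
      (1 / 12) * mo 0 3 r := by
  symm
  have := lin_ext (((lam + c0) * (lam ^ 2 / 4 + a₁ * lam + a₀) -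
        (lam ^ 3 / 12 + b₂ * lam ^ 2 + b₁ * lam + b₀)) • mo 0 0 +
      (-(lam ^ 2 / 4 + a₁ * lam + a₀)) • mo 1 0 +
      (-(lam ^ 2) / 4 + (2 * b₂ - a₁ - c0 / 2) * lam + (b₁ - a₁ * c0)) • mo 0 1 +
      (lam / 2 + a₁) • mo 1 1 + (c0 / 4 - b₂) • mo 0 2 + (-(1 / 4) : ℝ) • mo 1 2 +
      (1 / 12 : ℝ) • mo 0 3) (fun v => PP a₁ a₀ b₂ b₁ b₀ (lam - v.1) (lam - v.2)) (by
      intro x y
      simp only [LinearMap.add_apply, LinearMap.smul_apply, smul_eq_mul, mo_E, PP]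
      ring) r
  simpa [LinearMap.add_apply, LinearMap.smul_apply, smul_eq_mul] using this

/-- the leading values -/
noncomputable def cc (p₀ p₁ p₂ : ℝ) (i j : ℕ) : ℝ :=
  if i = 0 ∧ j = 0 then p₂ else if i + j = 1 then -p₁ else if i = 1 ∧ j = 1 then p₀ else 0

/-- the family concentrated at the origin -/
noncomputable def dl (c : ℝ) (i j : ℕ) : ℝ := if i = 0 ∧ j = 0 then c else 0

lemma cc_le {p₀ p₁ p₂ K : ℝ} (h0 : |p₀| ≤ K) (h1 : |p₁| ≤ K) (h2 : |p₂| ≤ K) (i j : ℕ) :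
    |cc p₀ p₁ p₂ i j| ≤ K := by
  have hK : 0 ≤ K := (abs_nonneg _).trans h0
  unfold cc
  split_ifs
  · exact h2
  · rwa [abs_neg]
  · exact h0
  · rwa [abs_zero]

lemma close_dl {K D ε : ℝ} (hD : 0 ≤ D) (hK : 0 ≤ K) (hε : 0 ≤ ε) (hε2 : ε ≤ 2) (r : GR)
    (h : ∀ i j, i + j ≤ 3 → |mo i j r| ≤ K * D) :
    CF (4 * K) D ε (nm ε r) (dl (mo 0 0 r)) := by
  intro i j hij
  have h1 := h i j hij
  have hKD : 0 ≤ K * D := by positivity
  unfold dl nm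
  split_ifs with h0
  · obtain ⟨rfl, rfl⟩ := h0
    refine ⟨?_, ?_⟩
    · simp only [add_zero, pow_zero, one_mul, sub_self, abs_zero]
      positivity
    · linarith
  · refine ⟨?_, ?_⟩
    · rw [sub_zero, abs_mul, abs_of_nonneg (by positivity)]
      have hk : 1 ≤ i + j := by
        by_contra hcon
        exact h0 ⟨by omega, by omega⟩
      have h2 : ε ^ (i + j) ≤ 4 * ε := by
        obtain ⟨k, hk'⟩ : ∃ k, i + j = k + 1 := ⟨i + j - 1, by omega⟩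
        rw [hk', pow_succ]
        apply mul_le_mul_of_nonneg_right _ hε
        calc ε ^ k ≤ 2 ^ k := pow_le_pow_left₀ hε hε2 k
          _ ≤ 2 ^ 2 := pow_le_pow_right₀ (by norm_num) (by omega)
          _ = 4 := by norm_num
      calc ε ^ (i + j) * |mo i j r| ≤ (4 * ε) * (K * D) :=
            mul_le_mul h2 h1 (abs_nonneg _) (by positivity)
        _ = _ := by ring
    · rw [abs_zero]
      positivity

lemma close_B {K Eb l H s p₀ p₁ p₂ : ℝ} (hK : 0 < K) (hEb : 1 ≤ Eb) (hl : 0 < l)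
    (hs : s ^ 2 = 1) (hH : |H| ≤ K * Eb) (h0 : |p₀| ≤ K) (h1 : |p₁| ≤ K) (h2 : |p₂| ≤ K) (B : GR)
    (hB : ∀ i j, i + j ≤ 3 → |mo i j B - s * H * l ^ ((i : ℤ) + j - 2) * cc p₀ p₁ p₂ i j| ≤
      K * Eb * l ^ ((i : ℤ) + j - 3)) :
    CF (K + K ^ 2) Eb l⁻¹ (fun i j => l ^ 2 * nm l⁻¹ B i j)
      (fun i j => s * H * cc p₀ p₁ p₂ i j) := by
  intro i j hij
  have hs1 : |s| = 1 := by
    have : |s| ^ 2 = 1 := by rw [sq_abs, hs]
    exact (pow_eq_one_iff_of_nonneg (abs_nonneg s) two_ne_zero).1 this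
  have hc := cc_le h0 h1 h2 i j
  constructor
  · set W : ℝ := l ^ ((2 : ℤ) - ((i : ℤ) + j)) with hW
    have hW0 : 0 < W := by positivity
    have e1 : l ^ 2 * nm l⁻¹ B i j = W * mo i j B := by
      unfold nm
      rw [← mul_assoc, hW, zpow_sub₀ hl.ne', div_eq_mul_inv, inv_pow]
      congr 2
    have e2 : s * H * cc p₀ p₁ p₂ i j =
        W * (s * H * l ^ ((i : ℤ) + j - 2) * cc p₀ p₁ p₂ i j) := by
      have : W * l ^ ((i : ℤ) + j - 2) = 1 := by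
        rw [hW, ← zpow_add₀ hl.ne']
        have : (2 : ℤ) - ((i : ℤ) + j) + ((i : ℤ) + j - 2) = 0 := by ring
        rw [this, zpow_zero]
      calc s * H * cc p₀ p₁ p₂ i j = (W * l ^ ((i : ℤ) + j - 2)) * (s * H * cc p₀ p₁ p₂ i j) := by
            rw [this, one_mul]
        _ = _ := by ring
    have e3 : W * l ^ ((i : ℤ) + j - 3) = l⁻¹ := by
      rw [hW, ← zpow_add₀ hl.ne']
      have : (2 : ℤ) - ((i : ℤ) + j) + ((i : ℤ) + j - 3) = -1 := by ring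
      rw [this, zpow_neg_one]
    show |l ^ 2 * nm l⁻¹ B i j - s * H * cc p₀ p₁ p₂ i j| ≤ _
    rw [e1, e2, ← mul_sub, abs_mul, abs_of_pos hW0]
    calc W * |mo i j B - s * H * l ^ ((i : ℤ) + j - 2) * cc p₀ p₁ p₂ i j|
        ≤ W * (K * Eb * l ^ ((i : ℤ) + j - 3)) := mul_le_mul_of_nonneg_left (hB i j hij) hW0.le
      _ = K * Eb * (W * l ^ ((i : ℤ) + j - 3)) := by ring
      _ = K * Eb * l⁻¹ := by rw [e3]
      _ ≤ (K + K ^ 2) * Eb * l⁻¹ := by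
          have : 0 ≤ K ^ 2 * Eb * l⁻¹ := by positivity
          linarith
  · show |s * H * cc p₀ p₁ p₂ i j| ≤ _
    rw [abs_mul, abs_mul, hs1, one_mul]
    calc |H| * |cc p₀ p₁ p₂ i j| ≤ (K * Eb) * K :=
          mul_le_mul hH hc (abs_nonneg _) (by positivity)
      _ ≤ (K + K ^ 2) * Eb := by nlinarith

theorem pf_QUA (hMOM : T_MOM) : T_QUA := by
  intro a₁ a₀ b₂ b₁ b₀ κ K hK
  have G1 := Good.fst κ K hK.le
  have G2 := Good.snd κ K
  have Gc := Good.const κ K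
  obtain ⟨C0, hC0, hC0', hC0''⟩ := ((G1.add ((Gc c0).mul G2)).mul
    ((((G1.pow 2).mul (Gc (1 / 4))).add (((Gc a₁).mul G1).mul G2)).add ((Gc a₀).mul (G2.pow 2)))).sub
    (((((G1.pow 3).mul (Gc (1 / 12))).add (((Gc b₂).mul (G1.pow 2)).mul G2)).add
      (((Gc b₁).mul G1).mul (G2.pow 2))).add ((Gc b₀).mul (G2.pow 3)))
  obtain ⟨C1, hC1, hC1', hC1''⟩ := ((((G1.pow 2).mul (Gc (1 / 4))).add
    (((Gc a₁).mul G1).mul G2)).add ((Gc a₀).mul (G2.pow 2))).neg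
  obtain ⟨C2, hC2, hC2', hC2''⟩ := ((((G1.pow 2).mul (Gc (-(1 / 4)))).add
    (((Gc (2 * b₂ - a₁ - c0 / 2)).mul G1).mul G2)).add ((Gc (b₁ - a₁ * c0)).mul (G2.pow 2)))
  obtain ⟨C3, hC3, hC3', hC3''⟩ := (G1.mul (Gc (1 / 2))).add ((Gc a₁).mul G2)
  obtain ⟨C4, hC4, hC4', hC4''⟩ := (Gc (c0 / 4 - b₂)).mul G2
  set Ch : ℝ := C0 + C1 + C2 + C3 + C4 + 1 with hCh
  have hCh0 : 0 < Ch := by positivity
  set Cf : ℝ := 32 * (4 * K * (32 * (4 * K * (32 * ((K + K ^ 2) * (K + K ^ 2)))))) with hCf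
  have hCf0 : 0 < Cf := by positivity
  refine ⟨28 * Ch * Cf, by positivity, ?_⟩
  intro N₀ Et B l lam g d H Eb s p₀ p₁ p₂ hl hlam hd hEb hs hH hp0 hp1 hp2 hNE hg hB
  have hl0 : 0 < l := by linarith
  set ε : ℝ := l⁻¹ with hε
  have hε0 : 0 < ε := by positivity
  have hε2 : ε ≤ 2 := by
    rw [hε, inv_le_comm₀ hl0 (by norm_num)]
    linarith
  have hlε : l * ε = 1 := mul_inv_cancel₀ hl0.ne'
  have hd0 : 0 < d := by linarith
  -- the families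
  have f1 : CF (4 * K) 1 ε (nm ε N₀) (dl (mo 0 0 N₀)) :=
    close_dl zero_le_one hK.le hε0.le hε2 N₀ fun i j hij => by
      rw [mul_one]
      exact (hNE i j hij).1
  have f2 : CF (4 * K) (1 / d) ε (nm ε Et) (dl (mo 0 0 Et)) :=
    close_dl (by positivity) hK.le hε0.le hε2 Et fun i j hij => by
      have := (hNE i j hij).2
      rwa [div_eq_mul_one_div] at this
  have f3 : CF (K + K ^ 2) Eb ε (fun i j => l ^ 2 * nm ε B i j)
      (fun i j => s * H * cc p₀ p₁ p₂ i j) :=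
    close_B hK hEb hl0 hs hH hp0 hp1 hp2 B hB
  have hEb0 : 0 ≤ Eb := by linarith
  have f4 := cv_close (by positivity) (by positivity) hEb0 hEb0 hε0.le hε2 f3 f3
  have f5 := cv_close (by positivity) (by positivity) (by positivity) (by positivity) hε0.le hε2
    f2 f4
  have f6 := cv_close (by positivity) (by positivity) (by positivity) (by positivity) hε0.le hε2
    f1 f5
  rw [← hCf] at f6
  set F := cv (nm ε N₀) (cv (nm ε Et) (cv (fun i j => l ^ 2 * nm ε B i j)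
    (fun i j => l ^ 2 * nm ε B i j))) with hF
  set F0 := cv (dl (mo 0 0 N₀)) (cv (dl (mo 0 0 Et)) (cv (fun i j => s * H * cc p₀ p₁ p₂ i j)
    (fun i j => s * H * cc p₀ p₁ p₂ i j))) with hF0
  have hFnm : F = fun i j => l ^ 4 * nm ε (N₀ * (Et * B ^ 2)) i j := by
    rw [hF, nm_mul hMOM, nm_mul hMOM, sq B, nm_mul hMOM, cv_smul]
    have e1 : ∀ f g : ℕ → ℕ → ℝ, cv f (fun i j => l ^ 2 * l ^ 2 * g i j) =
        fun i j => l ^ 4 * cv f g i j := by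
      intro f g
      have := cv_smul 1 (l ^ 2 * l ^ 2) f g
      simp only [one_mul] at this
      rw [this]
      funext i j
      ring
    rw [e1]
    have e2 : ∀ f g : ℕ → ℕ → ℝ, cv f (fun i j => l ^ 4 * g i j) =
        fun i j => l ^ 4 * cv f g i j := by
      intro f g
      have := cv_smul 1 (l ^ 4) f g
      simp only [one_mul] at this
      rw [this]
    rw [e2]
  set S : ℝ := 1 * (1 / d * (Eb * Eb)) with hS
  have hS0 : 0 ≤ S := by positivity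
  set x : ℝ := lam * ε with hx
  have hxκ : |x - κ| ≤ K * ε := by
    have : x - κ = (lam - κ * l) * ε := by
      rw [hx, sub_mul, mul_assoc κ, hlε, mul_one]
    rw [this, abs_mul, abs_of_pos hε0]
    exact mul_le_mul_of_nonneg_right hlam hε0.le
  have g0 := hC0'' x ε hε0.le hε2 hxκ
  have g1 := hC1'' x ε hε0.le hε2 hxκ
  have g2 := hC2'' x ε hε0.le hε2 hxκ
  have g3 := hC3'' x ε hε0.le hε2 hxκ
  have g4 := hC4'' x ε hε0.le hε2 hxκ
  simp only [mul_zero, add_zero, ne_eq, OfNat.ofNat_ne_zero, not_false_eq_true, zero_pow,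
    sub_zero] at g0 g1 g2 g3 g4 hC0' hC1' hC2' hC3' hC4'
  -- a product
  have pr : ∀ (i j : ℕ) (y y₀ C : ℝ), i + j ≤ 3 → 0 ≤ C → C ≤ Ch → |y - y₀| ≤ C * ε →
      |y₀| ≤ C → |y * F i j - y₀ * F0 i j| ≤ 4 * (Ch * Cf) * (1 * S) * ε := by
    intro i j y y₀ C hij hC hCC h1 h2
    obtain ⟨h3, h4⟩ := f6 i j hij
    refine (mul_close hCh0.le hCf0.le zero_le_one hS0 hε0.le hε2 ?_ ?_ h3 h4).1
    · rw [mul_one]
      exact h1.trans (mul_le_mul_of_nonneg_right hCC hε0.le)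
    · rw [mul_one]
      exact h2.trans hCC
  have q0 := pr 0 0 _ _ C0 (by norm_num) hC0 (by rw [hCh]; linarith) g0 hC0'
  have q1 := pr 1 0 _ _ C1 (by norm_num) hC1 (by rw [hCh]; linarith) g1 hC1'
  have q2 := pr 0 1 _ _ C2 (by norm_num) hC2 (by rw [hCh]; linarith) g2 hC2'
  have q3 := pr 1 1 _ _ C3 (by norm_num) hC3 (by rw [hCh]; linarith) g3 hC3'
  have q4 := pr 0 2 ((c0 / 4 - b₂) * ε) 0 C4 (by norm_num) hC4 (by rw [hCh]; linarith)
    (by simpa using g4) (by simpa using hC4)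
  have q5 := pr 1 2 (-(1 / 4)) (-(1 / 4)) 1 (by norm_num) zero_le_one (by rw [hCh]; linarith)
    (by simp; positivity) (by rw [abs_le]; constructor <;> norm_num)
  have q6 := pr 0 3 (1 / 12) (1 / 12) 1 (by norm_num) zero_le_one (by rw [hCh]; linarith)
    (by simp; positivity) (by rw [abs_le]; constructor <;> norm_num)
  -- the values of the main family
  have hval : ∀ i j, F0 i j = mo 0 0 N₀ * g * H ^ 2 * cv (cc p₀ p₁ p₂) (cc p₀ p₁ p₂) i j := by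
    intro i j
    have e1 : ∀ (c : ℝ) (f : ℕ → ℕ → ℝ) (i j : ℕ), cv (dl c) f i j = c * f i j := by
      intro c f i j
      unfold cv dl
      rw [Finset.sum_eq_single 0, Finset.sum_eq_single 0]
      · simp
      · intro b _ hb
        rw [if_neg (fun h => hb h.2)]
        ring
      · intro h
        simp at h
      · intro a _ ha
        apply Finset.sum_eq_zero
        intro b _
        rw [if_neg (fun h => ha h.1)]
        ring
      · intro h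
        simp at h
    rw [hF0, e1, e1, cv_smul, hg]
    have e2 : s * H * (s * H) = H ^ 2 := by
      calc s * H * (s * H) = s ^ 2 * H ^ 2 := by ring
        _ = H ^ 2 := by rw [hs, one_mul]
    simp only [e2]
    ring
  have hlin : lin (fun v => PP a₁ a₀ b₂ b₁ b₀ (lam - v.1) (lam - v.2)) (N₀ * (Et * B ^ 2)) =
      ε * (((x + c0 * ε) * (x ^ 2 * (1 / 4) + a₁ * x * ε + a₀ * ε ^ 2) -
            (x ^ 3 * (1 / 12) + b₂ * x ^ 2 * ε + b₁ * x * ε ^ 2 + b₀ * ε ^ 3)) * F 0 0 +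
        -(x ^ 2 * (1 / 4) + a₁ * x * ε + a₀ * ε ^ 2) * F 1 0 +
        (x ^ 2 * -(1 / 4) + (2 * b₂ - a₁ - c0 / 2) * x * ε + (b₁ - a₁ * c0) * ε ^ 2) * F 0 1 +
        (x * (1 / 2) + a₁ * ε) * F 1 1 + (c0 / 4 - b₂) * ε * F 0 2 + -(1 / 4) * F 1 2 +
        1 / 12 * F 0 3) := by
    rw [lin_PP, hFnm]
    simp only [nm]
    have hl' : l = ε⁻¹ := by rw [hε, inv_inv]
    rw [hx, hl']
    field_simp
    ring
  have hmain : (κ * (κ ^ 2 * (1 / 4)) - κ ^ 3 * (1 / 12)) * F0 0 0 +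
      -(κ ^ 2 * (1 / 4)) * F0 1 0 + κ ^ 2 * -(1 / 4) * F0 0 1 + κ * (1 / 2) * F0 1 1 +
      0 * F0 0 2 + -(1 / 4) * F0 1 2 + 1 / 12 * F0 0 3 =
      mo 0 0 N₀ * g * H ^ 2 * Fi κ p₀ p₁ p₂ := by
    rw [hval, hval, hval, hval, hval, hval, hval]
    simp only [cv, cc, Finset.sum_range_succ, Finset.sum_range_zero, Fi]
    norm_num [Nat.choose]
    ring
  have hfin : |(((x + c0 * ε) * (x ^ 2 * (1 / 4) + a₁ * x * ε + a₀ * ε ^ 2) -
            (x ^ 3 * (1 / 12) + b₂ * x ^ 2 * ε + b₁ * x * ε ^ 2 + b₀ * ε ^ 3)) * F 0 0 +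
        -(x ^ 2 * (1 / 4) + a₁ * x * ε + a₀ * ε ^ 2) * F 1 0 +
        (x ^ 2 * -(1 / 4) + (2 * b₂ - a₁ - c0 / 2) * x * ε + (b₁ - a₁ * c0) * ε ^ 2) * F 0 1 +
        (x * (1 / 2) + a₁ * ε) * F 1 1 + (c0 / 4 - b₂) * ε * F 0 2 + -(1 / 4) * F 1 2 +
        1 / 12 * F 0 3) - mo 0 0 N₀ * g * H ^ 2 * Fi κ p₀ p₁ p₂| ≤
      7 * (4 * (Ch * Cf) * (1 * S) * ε) := by
    rw [← hmain]
    rw [abs_le] at q0 q1 q2 q3 q4 q5 q6 ⊢
    constructor
    · linarith [q0.1, q1.1, q2.1, q3.1, q4.1, q5.1, q6.1]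
    · linarith [q0.2, q1.2, q2.2, q3.2, q4.2, q5.2, q6.2]
  have e1 : l ^ (-1 : ℤ) = ε := by rw [zpow_neg_one]
  have e2 : l ^ (-2 : ℤ) = ε ^ 2 := by
    rw [hε, inv_pow, zpow_neg]
    congr 1
  rw [hlin, e1, e2]
  have e3 : mo 0 0 N₀ * g * H ^ 2 * ε * Fi κ p₀ p₁ p₂ =
      ε * (mo 0 0 N₀ * g * H ^ 2 * Fi κ p₀ p₁ p₂) := by ring
  rw [e3, ← mul_sub, abs_mul, abs_of_pos hε0]
  calc _ ≤ ε * (7 * (4 * (Ch * Cf) * (1 * S) * ε)) := mul_le_mul_of_nonneg_left hfin hε0.le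
    _ = 28 * Ch * Cf * Eb ^ 2 / d * ε ^ 2 := by
        rw [hS]
        ring

end Pool.Agent.H39.CN
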