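import Pool.Agent.H31.CN.T1
import Pool.Agent.H31.CN.T2
import Pool.Agent.H38.CN.INN

/-!
# The terms outside the main range
-/

set_option autoImplicit false

open MeasureTheory Set Filter

namespace Pool.Agent.H39.CN

open Pool.Agent.H31.CN

/-- a bounded function of compact support -/
lemma G_bound (G : ℝ → ℝ) (η : ℝ) (hGs : ContDiff ℝ (⊤ : ℕ∞) G)
    (hG : ∀ u, u ∉ Icc η 1 → G u = 0) : ∃ C : ℝ, 0 < C ∧ ∀ u, |G u| ≤ C := by
  obtain ⟨C, hC⟩ := (isCompact_Icc (a := η) (b := (1 : ℝ))).exists_bound_of_continuousOn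
    hGs.continuous.continuousOn
  refine ⟨|C| + 1, by positivity, fun u => ?_⟩
  by_cases hu : u ∈ Icc η 1
  · have := hC u hu
    rw [Real.norm_eq_abs] at this
    linarith [le_abs_self C]
  · rw [hG u hu, abs_zero]
    positivity

lemma zf_bound (hHZ : T_HZ) : ∃ (C : ℝ) (k : ℕ), 0 < C ∧ ∀ A B Δ : ℝ, 1 ≤ A → 1 ≤ Δ →
    |zf A B Δ| ≤ C * (A + Δ) ^ k := by
  obtain ⟨C, k, hC, h⟩ := hHZ
  refine ⟨C * 2 ^ k, k, by positivity, fun A B Δ hA hΔ => ?_⟩
  obtain ⟨f, -, h1, h2⟩ := h A B Δ hA hΔ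
  have h3 := h1 1 one_pos
  have h4 := h2 1 (by
    show |(1 : ℂ).im| < (1 : ℂ).re
    simp)
  rw [mul_one] at h3
  push_cast at h3
  rw [h3, Complex.norm_real, Real.norm_eq_abs] at h4
  refine h4.trans (le_of_eq ?_)
  simp
  ring

lemma Nb_bound (m₁ m₂ A e : ℕ) (h1 : m₁ ≠ 0) (h2 : m₂ ≠ 0) :
    |Nb m₁ m₂ A e| ≤ ((m₁ : ℝ) * m₂) ^ 4 := by
  have hm : m₁ * m₂ ≠ 0 := mul_ne_zero h1 h2
  unfold Nb
  rw [Finset.abs_prod]
  have hk : ∀ p ∈ (m₁ * m₂).primeFactors, |(if p ∣ m₁ ∧ p ∣ m₂ then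
      ((if p ^ 2 ∣ A then 1 else 0) +
        (if p ∣ A ∧ p ∣ e then 2 - 1 / (p : ℝ) else 0) +
        (if p ∣ e then 1 else 0) + (if p ^ 2 ∣ e then 1 else 0) : ℝ)
    else ((if p ∣ A then 1 else 0) + (if p ∣ e then 1 else 0) : ℝ))| ≤ (p : ℝ) ^ 4 := by
    intro p hp
    have hp2 : (2 : ℝ) ≤ p := by exact_mod_cast (Nat.prime_of_mem_primeFactors hp).two_le
    have hp4 : (16 : ℝ) ≤ (p : ℝ) ^ 4 := by
      calc (16 : ℝ) = 2 ^ 4 := by norm_num
        _ ≤ (p : ℝ) ^ 4 := pow_le_pow_left₀ (by norm_num) hp2 4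
    have hip : 0 ≤ 1 / (p : ℝ) := by positivity
    have hip1 : 1 / (p : ℝ) ≤ 1 := by
      rw [div_le_one (by linarith)]
      linarith
    rw [abs_le]
    constructor
    · split_ifs <;> linarith
    · split_ifs <;> linarith
  calc _ ≤ ∏ p ∈ (m₁ * m₂).primeFactors, (p : ℝ) ^ 4 :=
        Finset.prod_le_prod (fun _ _ => abs_nonneg _) hk
    _ = ((∏ p ∈ (m₁ * m₂).primeFactors, p : ℕ) : ℝ) ^ 4 := by
        rw [Finset.prod_pow]
        push_cast
        rfl
    _ ≤ ((m₁ : ℝ) * m₂) ^ 4 := by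
        apply pow_le_pow_left₀ (by positivity)
        have := Nat.le_of_dvd (Nat.pos_of_ne_zero hm) (Nat.prod_primeFactors_dvd (m₁ * m₂))
        exact_mod_cast this

lemma wbar_bound (q : ℕ) (K : ℝ) (hq : 1 ≤ q) (w : ℕ → ℕ → ℤ → ℤ → ℝ) (hw : WD q K w) (e A : ℕ) :
    |wbar q w e A| ≤ K := by
  have hq0 : (0 : ℝ) < q := by exact_mod_cast hq
  unfold wbar
  rw [abs_mul, abs_of_nonneg (by positivity)]
  have h1 : |∑ B ∈ Finset.range q, ∑ C ∈ Finset.range q, w e A B C| ≤ (q : ℝ) ^ 2 * K := by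
    calc _ ≤ ∑ B ∈ Finset.range q, ∑ C ∈ Finset.range q, K := by
          refine (Finset.abs_sum_le_sum_abs _ _).trans (Finset.sum_le_sum fun B _ => ?_)
          refine (Finset.abs_sum_le_sum_abs _ _).trans (Finset.sum_le_sum fun C _ => ?_)
          exact hw.bd e A B C
      _ = (q : ℝ) ^ 2 * K := by
          rw [Finset.sum_const, Finset.sum_const, Finset.card_range, nsmul_eq_mul, nsmul_eq_mul]
          ring
  calc 1 / (q : ℝ) ^ 2 * |∑ B ∈ Finset.range q, ∑ C ∈ Finset.range q, w e A B C|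
      ≤ 1 / (q : ℝ) ^ 2 * ((q : ℝ) ^ 2 * K) := mul_le_mul_of_nonneg_left h1 (by positivity)
    _ = K := by field_simp

/-- the cut-off function, for `Δ ≤ X` -/
lemma Vk_bound (CV : ℝ) (hCV : 0 < CV) (hV : ∀ x : ℝ, 0 < x → |Vk x| ≤ CV * Real.exp (-(6 * x)))
    (y s X Δ : ℝ) (hy : 0 < y) (hs : 1 ≤ s) (hΔ : 0 < Δ) (hΔX : Δ ≤ X) :
    |Vk (s / (y * Real.sqrt Δ)) / Real.sqrt s| ≤ CV * Real.exp (-(s / (y * Real.sqrt X))) := by
  have hs0 : 0 < s := by linarith
  have h1 : 0 < s / (y * Real.sqrt Δ) := by positivity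
  have h2 : s / (y * Real.sqrt X) ≤ s / (y * Real.sqrt Δ) := by
    apply div_le_div_of_nonneg_left hs0.le (by positivity)
    exact mul_le_mul_of_nonneg_left (Real.sqrt_le_sqrt hΔX) hy.le
  have hsq : 1 ≤ Real.sqrt s := by
    rw [Real.one_le_sqrt]
    exact hs
  rw [abs_div, abs_of_pos (by linarith : 0 < Real.sqrt s)]
  calc |Vk (s / (y * Real.sqrt Δ))| / Real.sqrt s ≤ |Vk (s / (y * Real.sqrt Δ))| :=
        div_le_self (abs_nonneg _) hsq
    _ ≤ CV * Real.exp (-(6 * (s / (y * Real.sqrt Δ)))) := hV _ h1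
    _ ≤ CV * Real.exp (-(s / (y * Real.sqrt X))) := by
        apply mul_le_mul_of_nonneg_left _ hCV.le
        apply Real.exp_le_exp.2
        linarith

lemma Inn_bound (G : ℝ → ℝ) (η CG CV CZ : ℝ) (k : ℕ) (hη : 0 < η) (hCG : 0 < CG) (hCV : 0 < CV)
    (hCZ : 0 < CZ)
    (hG : ∀ u, u ∉ Icc η 1 → G u = 0) (hGb : ∀ u, |G u| ≤ CG)
    (hV : ∀ x : ℝ, 0 < x → |Vk x| ≤ CV * Real.exp (-(6 * x)))
    (hZ : ∀ A B Δ : ℝ, 1 ≤ A → 1 ≤ Δ → |zf A B Δ| ≤ CZ * (A + Δ) ^ k)
    (q n : ℕ) (K : ℝ) (hn : 1 ≤ n) (X : ℝ) (hX : 1 ≤ X) (m₁ m₂ : ℕ)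
    (w : ℕ → ℕ → ℤ → ℤ → ℝ) (e A : ℕ) (hw : WD q K w) (hm1 : m₁ ≠ 0) (hm2 : m₂ ≠ 0)
    (he : 1 ≤ e) (hA : 1 ≤ A) (h1 : (m₁ : ℝ) ≤ X) (h2 : (m₂ : ℝ) ≤ X) :
    |Inn G X n m₁ m₂ w e A| ≤ (X + 1) * (CG * ((2 * A) * (CV * Real.exp (-((e : ℝ) ^ 2 * A /
      ((n : ℝ) * m₁ * m₂ * Real.sqrt X))) * K * (X * X) ^ 4 * (CZ * (A + X) ^ k)))) := by
  have hK : 0 ≤ K := (abs_nonneg _).trans (hw.bd 0 0 0 0)
  have hX0 : 0 < X := by linarith
  have hn0 : (0 : ℝ) < n := by exact_mod_cast hn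
  have hm1r : (0 : ℝ) < m₁ := by exact_mod_cast Nat.pos_of_ne_zero hm1
  have hm2r : (0 : ℝ) < m₂ := by exact_mod_cast Nat.pos_of_ne_zero hm2
  have hAr : (1 : ℝ) ≤ A := by exact_mod_cast hA
  have her : (1 : ℝ) ≤ e := by exact_mod_cast he
  have hs : 1 ≤ (e : ℝ) ^ 2 * A := by
    have : (1 : ℝ) ≤ (e : ℝ) ^ 2 := one_le_pow₀ her
    nlinarith
  have hy : 0 < (n : ℝ) * m₁ * m₂ := by positivity
  set M : ℝ := CV * Real.exp (-((e : ℝ) ^ 2 * A / ((n : ℝ) * m₁ * m₂ * Real.sqrt X))) * K *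
    (X * X) ^ 4 * (CZ * (A + X) ^ k) with hM
  have hM0 : 0 ≤ M := by positivity
  unfold Inn
  rw [tsum_eq_sum (s := Finset.range (⌊X⌋₊ + 1))]
  · have hterm : ∀ Δ ∈ Finset.range (⌊X⌋₊ + 1), |G ((Δ : ℝ) / X) * ∑ B ∈ (Finset.range (2 * A)).filter
        (fun B => 4 * A ∣ B ^ 2 + Δ),
        Vk ((e : ℝ) ^ 2 * A / ((n : ℝ) * m₁ * m₂ * Real.sqrt Δ)) / Real.sqrt ((e : ℝ) ^ 2 * A) *
        w e A B (((B ^ 2 + Δ) / (4 * A) : ℕ) : ℤ) *
        Nw m₁ m₂ A B (((B ^ 2 + Δ) / (4 * A) : ℕ) : ℤ) e * zf A B Δ| ≤ CG * ((2 * A) * M) := by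
      intro Δ hΔ
      by_cases hu : ((Δ : ℝ) / X) ∈ Icc η 1
      · have hΔ0 : (0 : ℝ) < Δ := by
          have := lt_of_lt_of_le hη hu.1
          by_contra hcon
          push Not at hcon
          have : (Δ : ℝ) / X ≤ 0 := div_nonpos_of_nonpos_of_nonneg hcon hX0.le
          linarith
        have hΔ1 : (1 : ℝ) ≤ Δ := by
          have : 0 < Δ := by exact_mod_cast hΔ0
          exact_mod_cast this
        have hΔX : (Δ : ℝ) ≤ X := by
          have := hu.2
          rwa [div_le_one hX0] at this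
        rw [abs_mul]
        apply mul_le_mul (hGb _) _ (abs_nonneg _) hCG.le
        calc _ ≤ ∑ B ∈ (Finset.range (2 * A)).filter (fun B => 4 * A ∣ B ^ 2 + Δ), M := by
              refine (Finset.abs_sum_le_sum_abs _ _).trans (Finset.sum_le_sum fun B _ => ?_)
              rw [abs_mul, abs_mul, abs_mul, hM]
              have hN : |((Nw m₁ m₂ A B (((B ^ 2 + Δ) / (4 * A) : ℕ) : ℤ) e : ℕ) : ℝ)| ≤
                  (X * X) ^ 4 := by
                rw [abs_of_nonneg (Nat.cast_nonneg _)]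
                have h3 := Pool.Agent.H38.CN.Nw_le m₁ m₂ A B (((B ^ 2 + Δ) / (4 * A) : ℕ) : ℤ) e
                  hm1 hm2
                calc ((Nw m₁ m₂ A B (((B ^ 2 + Δ) / (4 * A) : ℕ) : ℤ) e : ℕ) : ℝ) ≤
                      (((m₁ * m₂) ^ 4 : ℕ) : ℝ) := by exact_mod_cast h3
                  _ = ((m₁ : ℝ) * m₂) ^ 4 := by push_cast; ring
                  _ ≤ (X * X) ^ 4 := by
                      apply pow_le_pow_left₀ (by positivity)
                      exact mul_le_mul h1 h2 (by positivity) hX0.le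
              have hzf : |zf A B Δ| ≤ CZ * (A + X) ^ k := by
                refine (hZ A B Δ hAr hΔ1).trans ?_
                apply mul_le_mul_of_nonneg_left _ hCZ.le
                exact pow_le_pow_left₀ (by positivity) (by linarith) k
              apply mul_le_mul _ hzf (abs_nonneg _) (by positivity)
              apply mul_le_mul _ hN (abs_nonneg _) (by positivity)
              apply mul_le_mul _ (hw.bd _ _ _ _) (abs_nonneg _) (by positivity)
              exact Vk_bound CV hCV hV _ _ X Δ hy hs hΔ0 hΔX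
          _ = ((Finset.range (2 * A)).filter (fun B => 4 * A ∣ B ^ 2 + Δ)).card * M := by
              rw [Finset.sum_const, nsmul_eq_mul]
          _ ≤ (2 * A) * M := by
              apply mul_le_mul_of_nonneg_right _ hM0
              have := Finset.card_filter_le (Finset.range (2 * A)) (fun B => 4 * A ∣ B ^ 2 + Δ)
              rw [Finset.card_range] at this
              exact_mod_cast this
      · rw [hG _ hu, zero_mul, abs_zero]
        positivity
    calc _ ≤ ∑ Δ ∈ Finset.range (⌊X⌋₊ + 1), CG * ((2 * A) * M) :=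
          (Finset.abs_sum_le_sum_abs _ _).trans (Finset.sum_le_sum hterm)
      _ = (⌊X⌋₊ + 1) * (CG * ((2 * A) * M)) := by
          rw [Finset.sum_const, Finset.card_range, nsmul_eq_mul]
          push_cast
          ring
      _ ≤ (X + 1) * (CG * ((2 * A) * M)) := by
          apply mul_le_mul_of_nonneg_right _ (by positivity)
          linarith [Nat.floor_le hX0.le]
  · intro Δ hΔ
    rw [Finset.mem_range] at hΔ
    rw [hG, zero_mul]
    intro hu
    have h3 : (Δ : ℝ) ≤ X := by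
      have := hu.2
      rwa [div_le_one hX0] at this
    have h4 : Δ ≤ ⌊X⌋₊ := Nat.le_floor h3
    omega

lemma Mai_bound (G : ℝ → ℝ) (η CG CV : ℝ) (hη : 0 < η) (hCG : 0 < CG) (hCV : 0 < CV)
    (hG : ∀ u, u ∉ Icc η 1 → G u = 0) (hGb : ∀ u, |G u| ≤ CG)
    (hV : ∀ x : ℝ, 0 < x → |Vk x| ≤ CV * Real.exp (-(6 * x)))
    (q n : ℕ) (K : ℝ) (hq : 1 ≤ q) (hn : 1 ≤ n) (X : ℝ) (hX : 1 ≤ X) (m₁ m₂ : ℕ)
    (w : ℕ → ℕ → ℤ → ℤ → ℝ) (e A : ℕ) (hw : WD q K w) (hm1 : m₁ ≠ 0) (hm2 : m₂ ≠ 0)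
    (he : 1 ≤ e) (hA : 1 ≤ A) (h1 : (m₁ : ℝ) ≤ X) (h2 : (m₂ : ℝ) ≤ X) :
    |Mai G X q n m₁ m₂ w e A| ≤ (1 / 2) * K * (X * X) ^ 4 * (X * (CG * (CV * Real.exp (-((e : ℝ) ^ 2 *
      A / ((n : ℝ) * m₁ * m₂ * Real.sqrt X)))) * (|Real.log η| + X + A + |c0|))) := by
  have hK : 0 ≤ K := (abs_nonneg _).trans (hw.bd 0 0 0 0)
  have hX0 : 0 < X := by linarith
  have hn0 : (0 : ℝ) < n := by exact_mod_cast hn
  have hm1r : (0 : ℝ) < m₁ := by exact_mod_cast Nat.pos_of_ne_zero hm1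
  have hm2r : (0 : ℝ) < m₂ := by exact_mod_cast Nat.pos_of_ne_zero hm2
  have hAr : (1 : ℝ) ≤ A := by exact_mod_cast hA
  have her : (1 : ℝ) ≤ e := by exact_mod_cast he
  have hs : 1 ≤ (e : ℝ) ^ 2 * A := by
    have : (1 : ℝ) ≤ (e : ℝ) ^ 2 := one_le_pow₀ her
    nlinarith
  have hy : 0 < (n : ℝ) * m₁ * m₂ := by positivity
  set M : ℝ := CG * (CV * Real.exp (-((e : ℝ) ^ 2 * A / ((n : ℝ) * m₁ * m₂ * Real.sqrt X)))) *
    (|Real.log η| + X + A + |c0|) with hM
  have hM0 : 0 ≤ M := by positivity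
  have hint : |∫ Δ in Ioi (0 : ℝ), G (Δ / X) *
      (Vk ((e : ℝ) ^ 2 * A / ((n : ℝ) * m₁ * m₂ * Real.sqrt Δ)) / Real.sqrt ((e : ℝ) ^ 2 * A)) *
        ct A Δ| ≤ X * M := by
    have hb : ∀ Δ : ℝ, ‖G (Δ / X) *
        (Vk ((e : ℝ) ^ 2 * A / ((n : ℝ) * m₁ * m₂ * Real.sqrt Δ)) /
          Real.sqrt ((e : ℝ) ^ 2 * A)) * ct A Δ‖ ≤ (Icc (η * X) X).indicator (fun _ => M) Δ := by
      intro Δ
      by_cases hu : Δ ∈ Icc (η * X) X
      · rw [Set.indicator_of_mem hu, Real.norm_eq_abs, abs_mul, abs_mul]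
        have hΔ0 : 0 < Δ := lt_of_lt_of_le (by positivity) hu.1
        have hct : |ct A Δ| ≤ |Real.log η| + X + A + |c0| := by
          unfold ct
          rw [abs_div, abs_of_pos (by positivity : 0 < Real.sqrt (A : ℝ))]
          have hsA : 1 ≤ Real.sqrt (A : ℝ) := by rw [Real.one_le_sqrt]; exact hAr
          refine (div_le_self (abs_nonneg _) hsA).trans ?_
          refine (abs_add_le _ _).trans (add_le_add ?_ le_rfl)
          rw [Real.log_div (by positivity) (by positivity), Real.log_sqrt hΔ0.le]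
          refine (abs_sub _ _).trans (add_le_add ?_ ?_)
          · have hlX : Real.log X ≤ X := (Real.log_le_self hX0.le)
            have h3 : Real.log Δ ≤ Real.log X := Real.log_le_log hΔ0 hu.2
            have h4 : Real.log η + Real.log X ≤ Real.log Δ := by
              rw [← Real.log_mul hη.ne' hX0.ne']
              exact Real.log_le_log (by positivity) hu.1
            have h5 : 0 ≤ Real.log X := Real.log_nonneg hX
            have h6 := neg_abs_le (Real.log η)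
            rw [abs_le]
            constructor
            · have := abs_nonneg (Real.log η)
              linarith
            · have := abs_nonneg (Real.log η)
              linarith
          · rw [abs_of_nonneg (Real.log_nonneg hAr)]
            exact Real.log_le_self (by linarith)
        rw [hM]
        apply mul_le_mul _ hct (abs_nonneg _) (by positivity)
        exact mul_le_mul (hGb _) (Vk_bound CV hCV hV _ _ X Δ hy hs hΔ0 hu.2) (abs_nonneg _) hCG.le
      · rw [Set.indicator_of_notMem hu, hG, zero_mul, zero_mul, norm_zero]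
        intro hcon
        apply hu
        rw [Set.mem_Icc, le_div_iff₀ hX0, div_le_one hX0] at hcon
        exact hcon
    rw [← Real.norm_eq_abs]
    have hI : Integrable ((Icc (η * X) X).indicator (fun _ : ℝ => M)) := by
      rw [integrable_indicator_iff measurableSet_Icc]
      exact integrableOn_const (by simp)
    refine (norm_integral_le_of_norm_le hI.integrableOn (Eventually.of_forall hb)).trans ?_
    calc ∫ Δ in Ioi (0 : ℝ), (Icc (η * X) X).indicator (fun _ => M) Δ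
        ≤ ∫ Δ, (Icc (η * X) X).indicator (fun _ => M) Δ :=
          setIntegral_le_integral hI (Eventually.of_forall fun Δ => by
            apply Set.indicator_nonneg
            intro _ _
            exact hM0)
      _ ≤ X * M := by
          rw [integral_indicator measurableSet_Icc, setIntegral_const, smul_eq_mul]
          apply mul_le_mul_of_nonneg_right _ hM0
          rw [Real.volume_real_Icc]
          exact max_le (by nlinarith) hX0.le
  unfold Mai
  rw [abs_mul, abs_mul, abs_mul]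
  have hNb : |Nb m₁ m₂ A e| ≤ (X * X) ^ 4 := by
    refine (Nb_bound m₁ m₂ A e hm1 hm2).trans ?_
    apply pow_le_pow_left₀ (by positivity)
    exact mul_le_mul h1 h2 (by positivity) hX0.le
  have h12 : |(1 / 2 : ℝ)| = 1 / 2 := abs_of_pos (by norm_num)
  rw [h12]
  apply mul_le_mul _ hint (abs_nonneg _) (by positivity)
  apply mul_le_mul _ hNb (abs_nonneg _) (by positivity)
  exact mul_le_mul_of_nonneg_left (wbar_bound q K hq w hw e A) (by norm_num)

/-- (TAI) the terms outside the main range. -/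
theorem pf_TAI (hVK : T_VK) (hHZ : T_HZ) : T_TAI := by
  intro G η hη hGs hG q n K hq hn
  obtain ⟨CG, hCG, hGb⟩ := G_bound G η hGs hG
  obtain ⟨CV, hCV, hV, -⟩ := hVK
  obtain ⟨CZ, k, hCZ, hZ⟩ := zf_bound hHZ
  set K' : ℝ := |K| with hK'
  set D : ℝ := |Real.log η| + 1 + |c0| with hD
  have hD1 : 1 ≤ D := by
    rw [hD]
    have := abs_nonneg (Real.log η)
    have := abs_nonneg c0
    linarith
  refine ⟨4 * CG * CV * K' * CZ + (1 / 2) * K' * CG * CV * D + 1, 10 + k, by positivity, ?_⟩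
  intro X hX m₁ m₂ w e A hw hs1 hs2 he hA h1 h2
  have hK : 0 ≤ K := (abs_nonneg _).trans (hw.bd 0 0 0 0)
  have hKK : K' = K := abs_of_nonneg hK
  have hm1 : m₁ ≠ 0 := hs1.ne_zero
  have hm2 : m₂ ≠ 0 := hs2.ne_zero
  have hX0 : 0 < X := by linarith
  have hAr : (1 : ℝ) ≤ A := by exact_mod_cast hA
  have her : (1 : ℝ) ≤ e := by exact_mod_cast he
  have b1 := Inn_bound G η CG CV CZ k hη hCG hCV hCZ hG hGb hV hZ q n K hn X hX m₁ m₂ w e A hw
    hm1 hm2 he hA h1 h2
  have b2 := Mai_bound G η CG CV hη hCG hCV hG hGb hV q n K hq hn X hX m₁ m₂ w e A hw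
    hm1 hm2 he hA h1 h2
  set P : ℝ := Real.exp (-((e : ℝ) ^ 2 * A / ((n : ℝ) * m₁ * m₂ * Real.sqrt X))) with hP
  have hP0 : 0 < P := Real.exp_pos _
  set S : ℝ := X + e + A with hS
  have hXS : X ≤ S := by rw [hS]; linarith
  have hAS : (A : ℝ) ≤ S := by rw [hS]; linarith
  have hS1 : 1 ≤ S := by linarith
  have hS0 : 0 < S := by linarith
  have c1 : (X + 1) * (CG * ((2 * A) * (CV * P * K * (X * X) ^ 4 * (CZ * (A + X) ^ k)))) ≤
      4 * CG * CV * K' * CZ * S ^ (10 + k) * P := by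
    rw [hKK]
    calc (X + 1) * (CG * ((2 * A) * (CV * P * K * (X * X) ^ 4 * (CZ * (A + X) ^ k))))
        ≤ (2 * S) * (CG * ((2 * S) * (CV * P * K * (S * S) ^ 4 * (CZ * S ^ k)))) := by
          have hXe : X + 1 ≤ 2 * S := by linarith
          have hAX : (A : ℝ) + X ≤ S := by rw [hS]; linarith
          gcongr
      _ = 4 * CG * CV * K * CZ * S ^ (10 + k) * P := by
          rw [pow_add]
          ring
  have c2 : (1 / 2) * K * (X * X) ^ 4 * (X * (CG * (CV * P) * (|Real.log η| + X + A + |c0|))) ≤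
      (1 / 2) * K' * CG * CV * D * S ^ (10 + k) * P := by
    rw [hKK]
    have hsum : |Real.log η| + X + A + |c0| ≤ D * S := by
      have e1 : |Real.log η| ≤ |Real.log η| * S := le_mul_of_one_le_right (abs_nonneg _) hS1
      have e2 : |c0| ≤ |c0| * S := le_mul_of_one_le_right (abs_nonneg _) hS1
      have e3 : X + A ≤ S := by rw [hS]; linarith
      calc |Real.log η| + X + A + |c0| ≤ |Real.log η| * S + S + |c0| * S := by linarith
        _ = D * S := by rw [hD]; ring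
    calc (1 / 2) * K * (X * X) ^ 4 * (X * (CG * (CV * P) * (|Real.log η| + X + A + |c0|)))
        ≤ (1 / 2) * K * (S * S) ^ 4 * (S * (CG * (CV * P) * (D * S))) := by gcongr
      _ = (1 / 2) * K * CG * CV * D * P * S ^ 10 := by ring
      _ ≤ (1 / 2) * K * CG * CV * D * P * S ^ (10 + k) := by
          apply mul_le_mul_of_nonneg_left _ (by positivity)
          exact pow_le_pow_right₀ hS1 (by omega)
      _ = _ := by ring
  have hfin : 0 ≤ S ^ (10 + k) * P := by positivity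
  calc _ ≤ 4 * CG * CV * K' * CZ * S ^ (10 + k) * P +
        (1 / 2) * K' * CG * CV * D * S ^ (10 + k) * P := add_le_add (b1.trans c1) (b2.trans c2)
    _ ≤ _ := by linarith

end Pool.Agent.H39.CN
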