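import Pool.Agent.H31.CN.T1
import Pool.Agent.H31.CN.T2
import Pool.Agent.H39.CN.TAI

/-!
# The average of the unfolded second moment over the discriminant
-/

set_option autoImplicit false

open MeasureTheory Set Filter Topology

namespace Pool.Agent.H39.CN

open Pool.Agent.H31.CN

/-- the term of the unfolded sum -/
noncomputable def trm (n m₁ m₂ : ℕ) (w : ℕ → ℕ → ℤ → ℤ → ℝ) (Δ e A : ℕ) : ℝ :=
  ∑ B ∈ (Finset.range (2 * A)).filter (fun B => 4 * A ∣ B ^ 2 + Δ),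
    Vk ((e : ℝ) ^ 2 * A / ((n : ℝ) * m₁ * m₂ * Real.sqrt Δ)) / Real.sqrt ((e : ℝ) ^ 2 * A) *
      w e A B (((B ^ 2 + Δ) / (4 * A) : ℕ) : ℤ) *
      Nw m₁ m₂ A B (((B ^ 2 + Δ) / (4 * A) : ℕ) : ℤ) e * zf A B Δ

lemma US_eq (n m₁ m₂ : ℕ) (w : ℕ → ℕ → ℤ → ℤ → ℝ) (Δ : ℕ) :
    US Δ (fun Q e => Vk ((e : ℝ) ^ 2 * Q.1 /
          ((n : ℝ) * m₁ * m₂ * Real.sqrt Δ)) / Real.sqrt ((e : ℝ) ^ 2 * Q.1) *
          w e Q.1.toNat Q.2.1 Q.2.2 * Nw m₁ m₂ Q.1.toNat Q.2.1 Q.2.2 e)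
          (fun Q => zf Q.1 Q.2.1 Δ) = ∑' p : ℕ × ℕ, trm n m₁ m₂ w Δ p.1 p.2 := by
  unfold US trm
  refine tsum_congr fun p => Finset.sum_congr rfl fun B _ => ?_
  simp only [Int.toNat_natCast, Int.cast_natCast]

lemma trm_zero_left (n m₁ m₂ : ℕ) (w : ℕ → ℕ → ℤ → ℤ → ℝ) (Δ A : ℕ) :
    trm n m₁ m₂ w Δ 0 A = 0 := by
  unfold trm
  refine Finset.sum_eq_zero fun B _ => ?_
  simp

lemma trm_zero_right (n m₁ m₂ : ℕ) (w : ℕ → ℕ → ℤ → ℤ → ℝ) (Δ e : ℕ) :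
    trm n m₁ m₂ w Δ e 0 = 0 := by
  unfold trm
  simp

lemma trm_bound (CV CZ : ℝ) (k : ℕ) (hCV : 0 < CV) (hCZ : 0 < CZ)
    (hV : ∀ x : ℝ, 0 < x → |Vk x| ≤ CV * Real.exp (-(6 * x)))
    (hZ : ∀ A B Δ : ℝ, 1 ≤ A → 1 ≤ Δ → |zf A B Δ| ≤ CZ * (A + Δ) ^ k)
    (q n : ℕ) (K : ℝ) (hn : 1 ≤ n) (X : ℝ) (hX : 1 ≤ X) (m₁ m₂ : ℕ)
    (w : ℕ → ℕ → ℤ → ℤ → ℝ) (e A : ℕ) (hw : WD q K w) (hm1 : m₁ ≠ 0) (hm2 : m₂ ≠ 0)
    (he : 1 ≤ e) (hA : 1 ≤ A) (h1 : (m₁ : ℝ) ≤ X) (h2 : (m₂ : ℝ) ≤ X)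
    (Δ : ℕ) (hΔ1 : (1 : ℝ) ≤ Δ) (hΔX : (Δ : ℝ) ≤ X) :
    |trm n m₁ m₂ w Δ e A| ≤ (2 * A) * (CV * Real.exp (-((e : ℝ) ^ 2 * A /
      ((n : ℝ) * m₁ * m₂ * Real.sqrt X))) * K * (X * X) ^ 4 * (CZ * (A + X) ^ k)) := by
  have hK : 0 ≤ K := (abs_nonneg _).trans (hw.bd 0 0 0 0)
  have hX0 : 0 < X := by linarith
  have hn0 : (0 : ℝ) < n := by exact_mod_cast hn
  have hm1r : (0 : ℝ) < m₁ := by exact_mod_cast Nat.pos_of_ne_zero hm1
  have hm2r : (0 : ℝ) < m₂ := by exact_mod_cast Nat.pos_of_ne_zero hm2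
  have hAr : (1 : ℝ) ≤ A := by exact_mod_cast hA
  have her : (1 : ℝ) ≤ e := by exact_mod_cast he
  have hs : 1 ≤ (e : ℝ) ^ 2 * A := by
    have : (1 : ℝ) ≤ (e : ℝ) ^ 2 := one_le_pow₀ her
    nlinarith
  have hy : 0 < (n : ℝ) * m₁ * m₂ := by positivity
  have hΔ0 : (0 : ℝ) < Δ := by linarith
  set M : ℝ := CV * Real.exp (-((e : ℝ) ^ 2 * A / ((n : ℝ) * m₁ * m₂ * Real.sqrt X))) * K *
    (X * X) ^ 4 * (CZ * (A + X) ^ k) with hM
  have hM0 : 0 ≤ M := by positivity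
  unfold trm
  calc _ ≤ ∑ B ∈ (Finset.range (2 * A)).filter (fun B => 4 * A ∣ B ^ 2 + Δ), M := by
        refine (Finset.abs_sum_le_sum_abs _ _).trans (Finset.sum_le_sum fun B _ => ?_)
        rw [abs_mul, abs_mul, abs_mul, hM]
        have hN : |((Nw m₁ m₂ A B (((B ^ 2 + Δ) / (4 * A) : ℕ) : ℤ) e : ℕ) : ℝ)| ≤
            (X * X) ^ 4 := by
          rw [abs_of_nonneg (Nat.cast_nonneg _)]
          have h3 := Pool.Agent.H38.CN.Nw_le m₁ m₂ A B (((B ^ 2 + Δ) / (4 * A) : ℕ) : ℤ) e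
            hm1 hm2
          calc ((Nw m₁ m₂ A B (((B ^ 2 + Δ) / (4 * A) : ℕ) : ℤ) e : ℕ) : ℝ) ≤
                (((m₁ * m₂) ^ 4 : ℕ) : ℝ) := by exact_mod_cast h3
            _ = ((m₁ : ℝ) * m₂) ^ 4 := by push_cast; ring
            _ ≤ (X * X) ^ 4 := by
                apply pow_le_pow_left₀ (by positivity)
                exact mul_le_mul h1 h2 (by positivity) hX0.le
        have hzf : |zf A B Δ| ≤ CZ * (A + X) ^ k := by
          refine (hZ A B Δ hAr hΔ1).trans ?_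
          apply mul_le_mul_of_nonneg_left _ hCZ.le
          exact pow_le_pow_left₀ (by positivity) (by linarith) k
        apply mul_le_mul _ hzf (abs_nonneg _) (by positivity)
        apply mul_le_mul _ hN (abs_nonneg _) (by positivity)
        apply mul_le_mul _ (hw.bd _ _ _ _) (abs_nonneg _) (by positivity)
        exact Vk_bound CV hCV hV _ _ X Δ hy hs hΔ0 hΔX
    _ = ((Finset.range (2 * A)).filter (fun B => 4 * A ∣ B ^ 2 + Δ)).card * M := by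
        rw [Finset.sum_const, nsmul_eq_mul]
    _ ≤ (2 * A) * M := by
        apply mul_le_mul_of_nonneg_right _ hM0
        have := Finset.card_filter_le (Finset.range (2 * A)) (fun B => 4 * A ∣ B ^ 2 + Δ)
        rw [Finset.card_range] at this
        exact_mod_cast this

/-- exponential decay beats a power -/
lemma exp_pow (k : ℕ) (L : ℝ) (hL : 1 ≤ L) (e : ℕ) :
    Real.exp (-((e : ℝ) / (2 * L))) ≤ 3 * (k.factorial * (2 * L) ^ k) / (1 + (e : ℝ)) ^ k := by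
  have hL0 : 0 < L := by linarith
  have he0 : (0 : ℝ) ≤ e := Nat.cast_nonneg e
  have h1 : Real.exp (-((e : ℝ) / (2 * L))) =
      Real.exp (1 / (2 * L)) * (Real.exp ((1 + (e : ℝ)) / (2 * L)))⁻¹ := by
    rw [← Real.exp_neg, ← Real.exp_add]
    congr 1
    field_simp
    ring
  have h2 : Real.exp (1 / (2 * L)) ≤ 3 := by
    have h3 : 1 / (2 * L) ≤ 1 := by
      rw [div_le_one (by positivity)]
      linarith
    have h4 := Real.exp_le_exp.2 h3
    have h5 := Real.exp_one_lt_d9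
    linarith
  have h3 : ((1 + (e : ℝ)) / (2 * L)) ^ k / k.factorial ≤ Real.exp ((1 + (e : ℝ)) / (2 * L)) :=
    Real.pow_div_factorial_le_exp _ (by positivity) k
  have h4 : 0 < ((1 + (e : ℝ)) / (2 * L)) ^ k / k.factorial := by positivity
  rw [h1]
  calc Real.exp (1 / (2 * L)) * (Real.exp ((1 + (e : ℝ)) / (2 * L)))⁻¹
      ≤ 3 * (((1 + (e : ℝ)) / (2 * L)) ^ k / k.factorial)⁻¹ := by
        apply mul_le_mul h2 _ (by positivity) (by norm_num)
        exact inv_anti₀ h4 h3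
    _ = _ := by
        rw [div_pow]
        field_simp

lemma dec (b : ℕ) (X L : ℝ) (hX : 1 ≤ X) (hL : 1 ≤ L) (e A : ℕ) (he : 1 ≤ e) (hA : 1 ≤ A) :
    (X + e + A) ^ b * Real.exp (-((e : ℝ) ^ 2 * A / L)) ≤
      X ^ b * (3 * ((b + 2).factorial * (2 * L) ^ (b + 2))) ^ 2 *
        ((1 / (1 + (e : ℝ)) ^ 2) * (1 / (1 + (A : ℝ)) ^ 2)) := by
  have hX0 : 0 < X := by linarith
  have hL0 : 0 < L := by linarith
  have hAr : (1 : ℝ) ≤ A := by exact_mod_cast hA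
  have her : (1 : ℝ) ≤ e := by exact_mod_cast he
  have h1 : X + e + A ≤ X * ((1 + e) * (1 + A)) := by nlinarith [mul_pos (show (0:ℝ) < e by linarith) (show (0:ℝ) < A by linarith)]
  have h2 : ((e : ℝ) / (2 * L)) + (A : ℝ) / (2 * L) ≤ (e : ℝ) ^ 2 * A / L := by
    rw [← add_div, div_le_div_iff₀ (by positivity) hL0]
    have h3 : (e : ℝ) + A ≤ 2 * ((e : ℝ) ^ 2 * A) := by
      have h4 : (e : ℝ) ≤ (e : ℝ) ^ 2 * A := by nlinarith
      have h5 : (A : ℝ) ≤ (e : ℝ) ^ 2 * A :=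
        le_mul_of_one_le_left (by linarith) (one_le_pow₀ her)
      linarith
    nlinarith
  have h3 : Real.exp (-((e : ℝ) ^ 2 * A / L)) ≤
      (3 * ((b + 2).factorial * (2 * L) ^ (b + 2)) / (1 + (e : ℝ)) ^ (b + 2)) *
      (3 * ((b + 2).factorial * (2 * L) ^ (b + 2)) / (1 + (A : ℝ)) ^ (b + 2)) := by
    calc Real.exp (-((e : ℝ) ^ 2 * A / L)) ≤
          Real.exp (-((e : ℝ) / (2 * L)) + -((A : ℝ) / (2 * L))) := by
          apply Real.exp_le_exp.2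
          linarith
      _ = Real.exp (-((e : ℝ) / (2 * L))) * Real.exp (-((A : ℝ) / (2 * L))) := Real.exp_add _ _
      _ ≤ _ := mul_le_mul (exp_pow _ L hL e) (exp_pow _ L hL A) (Real.exp_pos _).le (by positivity)
  calc (X + e + A) ^ b * Real.exp (-((e : ℝ) ^ 2 * A / L))
      ≤ (X * ((1 + e) * (1 + A))) ^ b * ((3 * ((b + 2).factorial * (2 * L) ^ (b + 2)) /
        (1 + (e : ℝ)) ^ (b + 2)) *
        (3 * ((b + 2).factorial * (2 * L) ^ (b + 2)) / (1 + (A : ℝ)) ^ (b + 2))) :=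
        mul_le_mul (pow_le_pow_left₀ (by positivity) h1 b) h3 (Real.exp_pos _).le (by positivity)
    _ = _ := by
        rw [mul_pow, mul_pow, pow_add (1 + (e : ℝ)) b 2, pow_add (1 + (A : ℝ)) b 2]
        field_simp

lemma sum_sq : Summable (fun p : ℕ × ℕ =>
    (1 / (1 + (p.1 : ℝ)) ^ 2) * (1 / (1 + (p.2 : ℝ)) ^ 2)) := by
  have h1 : Summable (fun n : ℕ => 1 / (1 + (n : ℝ)) ^ 2) := by
    have h2 : Summable (fun n : ℕ => 1 / (n : ℝ) ^ 2) :=
      Real.summable_one_div_nat_pow.2 (by norm_num)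
    have h3 := (summable_nat_add_iff 1).2 h2
    refine h3.congr fun n => ?_
    push_cast
    rw [add_comm]
  exact h1.mul_of_nonneg h1 (fun n => by positivity) (fun n => by positivity)

/-- the integrand of the main term -/
lemma integrand_bound (G : ℝ → ℝ) (η CG CV : ℝ) (hη : 0 < η) (hCG : 0 < CG) (hCV : 0 < CV)
    (hG : ∀ u, u ∉ Icc η 1 → G u = 0) (hGb : ∀ u, |G u| ≤ CG)
    (hV : ∀ x : ℝ, 0 < x → |Vk x| ≤ CV * Real.exp (-(6 * x)))
    (X y : ℝ) (hX : 1 ≤ X) (hy : 0 < y) (e A : ℕ) (he : 1 ≤ e) (hA : 1 ≤ A) (Δ : ℝ) :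
    ‖G (Δ / X) * (Vk ((e : ℝ) ^ 2 * A / (y * Real.sqrt Δ)) /
          Real.sqrt ((e : ℝ) ^ 2 * A)) * ct A Δ‖ ≤ (Icc (η * X) X).indicator (fun _ =>
      CG * (CV * Real.exp (-((e : ℝ) ^ 2 * A / (y * Real.sqrt X)))) *
    (|Real.log η| + X + A + |c0|)) Δ := by
  have hX0 : 0 < X := by linarith
  have hAr : (1 : ℝ) ≤ A := by exact_mod_cast hA
  have her : (1 : ℝ) ≤ e := by exact_mod_cast he
  have hs : 1 ≤ (e : ℝ) ^ 2 * A := by
    have : (1 : ℝ) ≤ (e : ℝ) ^ 2 := one_le_pow₀ her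
    nlinarith
  by_cases hu : Δ ∈ Icc (η * X) X
  · rw [Set.indicator_of_mem hu, Real.norm_eq_abs, abs_mul, abs_mul]
    have hΔ0 : 0 < Δ := lt_of_lt_of_le (by positivity) hu.1
    have hct : |ct A Δ| ≤ |Real.log η| + X + A + |c0| := by
      unfold ct
      rw [abs_div, abs_of_pos (by positivity : 0 < Real.sqrt (A : ℝ))]
      have hsA : 1 ≤ Real.sqrt (A : ℝ) := by rw [Real.one_le_sqrt]; exact hAr
      refine (div_le_self (abs_nonneg _) hsA).trans ?_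
      refine (abs_add_le _ _).trans (add_le_add ?_ le_rfl)
      rw [Real.log_div (by positivity) (by positivity), Real.log_sqrt hΔ0.le]
      refine (abs_sub _ _).trans (add_le_add ?_ ?_)
      · have hlX : Real.log X ≤ X := (Real.log_le_self hX0.le)
        have h3 : Real.log Δ ≤ Real.log X := Real.log_le_log hΔ0 hu.2
        have h4 : Real.log η + Real.log X ≤ Real.log Δ := by
          rw [← Real.log_mul hη.ne' hX0.ne']
          exact Real.log_le_log (by positivity) hu.1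
        have h5 : 0 ≤ Real.log X := Real.log_nonneg hX
        have h6 := neg_abs_le (Real.log η)
        rw [abs_le]
        constructor
        · have := abs_nonneg (Real.log η)
          linarith
        · have := abs_nonneg (Real.log η)
          linarith
      · rw [abs_of_nonneg (Real.log_nonneg hAr)]
        exact Real.log_le_self (by linarith)
    apply mul_le_mul _ hct (abs_nonneg _) (by positivity)
    exact mul_le_mul (hGb _) (Vk_bound CV hCV hV _ _ X Δ hy hs hΔ0 hu.2) (abs_nonneg _) hCG.le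
  · rw [Set.indicator_of_notMem hu, hG, zero_mul, zero_mul, norm_zero]
    intro hcon
    apply hu
    rw [Set.mem_Icc, le_div_iff₀ hX0, div_le_one hX0] at hcon
    exact hcon

lemma integrand_cont (G : ℝ → ℝ) (hGc : Continuous G) (hVK : T_VK)
    (X y : ℝ) (hX : 1 ≤ X) (hy : 0 < y) (e A : ℕ) (he : 1 ≤ e) (hA : 1 ≤ A) :
    ContinuousOn (fun Δ : ℝ => G (Δ / X) * (Vk ((e : ℝ) ^ 2 * A / (y * Real.sqrt Δ)) /
          Real.sqrt ((e : ℝ) ^ 2 * A)) * ct A Δ) (Ioi 0) := by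
  obtain ⟨C, hC, -, -, hd, -⟩ := hVK
  have hX0 : 0 < X := by linarith
  have hAr : (0 : ℝ) < A := by exact_mod_cast hA
  have her : (0 : ℝ) < e := by exact_mod_cast he
  have hVc : ContinuousOn Vk (Ioi 0) := fun x hx => (hd x hx).1.continuousAt.continuousWithinAt
  apply ContinuousOn.mul
  · apply ContinuousOn.mul
    · exact (hGc.comp (continuous_id.div_const X)).continuousOn
    · apply ContinuousOn.div_const
      apply hVc.comp
      · apply ContinuousOn.div continuousOn_const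
        · exact (continuous_const.mul Real.continuous_sqrt).continuousOn
        · intro Δ hΔ
          have : 0 < Real.sqrt Δ := Real.sqrt_pos.2 hΔ
          positivity
      · intro Δ hΔ
        have : 0 < Real.sqrt Δ := Real.sqrt_pos.2 hΔ
        show 0 < (e : ℝ) ^ 2 * A / (y * Real.sqrt Δ)
        positivity
  · unfold ct
    apply ContinuousOn.div_const
    apply ContinuousOn.add _ continuousOn_const
    apply ContinuousOn.log
    · exact (Real.continuous_sqrt.div_const _).continuousOn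
    · intro Δ hΔ
      have : 0 < Real.sqrt Δ := Real.sqrt_pos.2 hΔ
      positivity

/-- the integral of the main term is the sum of the main terms -/
lemma Mn_eq (G : ℝ → ℝ) (η : ℝ) (hη : 0 < η) (hGs : ContDiff ℝ (⊤ : ℕ∞) G)
    (hG : ∀ u, u ∉ Icc η 1 → G u = 0) (hVK : T_VK)
    (q n : ℕ) (K : ℝ) (hq : 1 ≤ q) (hn : 1 ≤ n) (X : ℝ) (hX : 1 ≤ X) (m₁ m₂ : ℕ)
    (w : ℕ → ℕ → ℤ → ℤ → ℝ) (hw : WD q K w) (hm1 : m₁ ≠ 0) (hm2 : m₂ ≠ 0) :
    (1 / 2) * ∫ Δ in Ioi (0 : ℝ), G (Δ / X) * Mn q n m₁ m₂ w Δ =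
      ∑' p : ℕ × ℕ, Mai G X q n m₁ m₂ w p.1 p.2 := by
  obtain ⟨CG, hCG, hGb⟩ := G_bound G η hGs hG
  have hVK' := hVK
  obtain ⟨CV, hCV, hV, -⟩ := hVK'
  have hK : 0 ≤ K := (abs_nonneg _).trans (hw.bd 0 0 0 0)
  have hX0 : 0 < X := by linarith
  have hn0 : (0 : ℝ) < n := by exact_mod_cast hn
  have hm1r : (0 : ℝ) < m₁ := by exact_mod_cast Nat.pos_of_ne_zero hm1
  have hm2r : (0 : ℝ) < m₂ := by exact_mod_cast Nat.pos_of_ne_zero hm2
  have hy : 0 < (n : ℝ) * m₁ * m₂ := by positivity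
  -- the terms
  set F : ℕ × ℕ → ℝ → ℝ := fun p Δ => (wbar q w p.1 p.2 * Nb m₁ m₂ p.2 p.1) * (G (Δ / X) *
    (Vk ((p.1 : ℝ) ^ 2 * p.2 / ((n : ℝ) * m₁ * m₂ * Real.sqrt Δ)) /
      Real.sqrt ((p.1 : ℝ) ^ 2 * p.2)) * ct p.2 Δ) with hF
  have hzero : ∀ p : ℕ × ℕ, ¬ (1 ≤ p.1 ∧ 1 ≤ p.2) → F p = 0 := by
    intro p hp
    have h0 : (p.1 : ℝ) ^ 2 * p.2 = 0 := by
      rcases Nat.eq_zero_or_pos p.1 with h | h
      · rw [h]; simp
      · rcases Nat.eq_zero_or_pos p.2 with h' | h'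
        · rw [h']; simp
        · exact absurd ⟨h, h'⟩ hp
    funext Δ
    rw [hF]
    simp [h0]
  have h1 : ∀ Δ : ℝ, G (Δ / X) * Mn q n m₁ m₂ w Δ = ∑' p : ℕ × ℕ, F p Δ := by
    intro Δ
    unfold Mn
    rw [← tsum_mul_left]
    refine tsum_congr fun p => ?_
    rw [hF]
    ring
  have h2 : ∀ p : ℕ × ℕ, (1 / 2) * ∫ Δ in Ioi (0 : ℝ), F p Δ = Mai G X q n m₁ m₂ w p.1 p.2 := by
    intro p
    unfold Mai
    rw [hF]
    simp only
    rw [integral_const_mul]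
    ring
  -- the bound
  set Bd : ℕ × ℕ → ℝ := fun p => K * ((m₁ : ℝ) * m₂) ^ 4 * (CG * (CV *
    Real.exp (-((p.1 : ℝ) ^ 2 * p.2 / ((n : ℝ) * m₁ * m₂ * Real.sqrt X)))) *
    (|Real.log η| + X + p.2 + |c0|)) with hBd
  have hBd0 : ∀ p, 0 ≤ Bd p := by
    intro p
    rw [hBd]
    positivity
  have hFb : ∀ p : ℕ × ℕ, ∀ Δ : ℝ, ‖F p Δ‖ ≤ (Icc (η * X) X).indicator (fun _ => Bd p) Δ := by
    intro p Δ
    by_cases hp : 1 ≤ p.1 ∧ 1 ≤ p.2
    · have h3 := integrand_bound G η CG CV hη hCG hCV hG hGb hV X ((n : ℝ) * m₁ * m₂) hX hy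
        p.1 p.2 hp.1 hp.2 Δ
      have h4 : |wbar q w p.1 p.2 * Nb m₁ m₂ p.2 p.1| ≤ K * ((m₁ : ℝ) * m₂) ^ 4 := by
        rw [abs_mul]
        exact mul_le_mul (wbar_bound q K hq w hw _ _) (Nb_bound m₁ m₂ _ _ hm1 hm2) (abs_nonneg _) hK
      rw [hF]
      simp only
      rw [norm_mul, Real.norm_eq_abs (wbar q w p.1 p.2 * Nb m₁ m₂ p.2 p.1)]
      refine (mul_le_mul h4 h3 (norm_nonneg _) (by positivity)).trans (le_of_eq ?_)
      by_cases hu : Δ ∈ Icc (η * X) X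
      · rw [Set.indicator_of_mem hu, Set.indicator_of_mem hu]
      · rw [Set.indicator_of_notMem hu, Set.indicator_of_notMem hu, mul_zero]
    · rw [hzero p hp]
      simp only [Pi.zero_apply, norm_zero]
      apply Set.indicator_nonneg
      intro _ _
      exact hBd0 p
  have hI : ∀ M : ℝ, Integrable ((Icc (η * X) X).indicator (fun _ : ℝ => M)) := by
    intro M
    rw [integrable_indicator_iff measurableSet_Icc]
    exact integrableOn_const (by simp)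
  have hFm : ∀ p : ℕ × ℕ, AEStronglyMeasurable (F p) (volume.restrict (Ioi (0 : ℝ))) := by
    intro p
    by_cases hp : 1 ≤ p.1 ∧ 1 ≤ p.2
    · have h3 := integrand_cont G hGs.continuous hVK X ((n : ℝ) * m₁ * m₂) hX hy p.1 p.2 hp.1 hp.2
      have h4 := (continuousOn_const (c := wbar q w p.1 p.2 * Nb m₁ m₂ p.2 p.1)).mul h3
      exact h4.aestronglyMeasurable measurableSet_Ioi
    · rw [hzero p hp]
      exact aestronglyMeasurable_zero
  have hFi : ∀ p : ℕ × ℕ, Integrable (F p) (volume.restrict (Ioi (0 : ℝ))) := fun p =>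
    (hI (Bd p)).integrableOn.mono' (hFm p) (Eventually.of_forall (hFb p))
  have hFn : ∀ p : ℕ × ℕ, ∫ Δ in Ioi (0 : ℝ), ‖F p Δ‖ ≤ X * Bd p := by
    intro p
    calc ∫ Δ in Ioi (0 : ℝ), ‖F p Δ‖ ≤
          ∫ Δ in Ioi (0 : ℝ), (Icc (η * X) X).indicator (fun _ => Bd p) Δ :=
          integral_mono (hFi p).norm (hI (Bd p)).integrableOn (hFb p)
      _ ≤ ∫ Δ, (Icc (η * X) X).indicator (fun _ => Bd p) Δ :=
          setIntegral_le_integral (hI _) (Eventually.of_forall fun Δ => by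
            apply Set.indicator_nonneg
            intro _ _
            exact hBd0 p)
      _ ≤ X * Bd p := by
          rw [integral_indicator measurableSet_Icc, setIntegral_const, smul_eq_mul]
          apply mul_le_mul_of_nonneg_right _ (hBd0 p)
          rw [Real.volume_real_Icc]
          exact max_le (by nlinarith) hX0.le
  -- summability
  set L : ℝ := (n : ℝ) * m₁ * m₂ * Real.sqrt X with hL
  have hL1 : 1 ≤ L := by
    have e1 : (1 : ℝ) ≤ n := by exact_mod_cast hn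
    have e2 : (1 : ℝ) ≤ m₁ := by exact_mod_cast Nat.pos_of_ne_zero hm1
    have e3 : (1 : ℝ) ≤ m₂ := by exact_mod_cast Nat.pos_of_ne_zero hm2
    have e4 : 1 ≤ Real.sqrt X := by rw [Real.one_le_sqrt]; exact hX
    rw [hL]
    exact one_le_mul_of_one_le_of_one_le (one_le_mul_of_one_le_of_one_le
      (one_le_mul_of_one_le_of_one_le e1 e2) e3) e4
  have hsum : Summable (fun p : ℕ × ℕ => ∫ Δ in Ioi (0 : ℝ), ‖F p Δ‖) := by
    set D : ℝ := |Real.log η| + 1 + |c0| with hD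
    have hD0 : 0 < D := by
      rw [hD]
      positivity
    refine Summable.of_nonneg_of_le (fun p => integral_nonneg fun _ => norm_nonneg _) ?_
      (sum_sq.mul_left (X * (K * ((m₁ : ℝ) * m₂) ^ 4 * (CG * CV * D)) *
        (X ^ 1 * (3 * ((1 + 2).factorial * (2 * L) ^ (1 + 2))) ^ 2)))
    intro p
    by_cases hp : 1 ≤ p.1 ∧ 1 ≤ p.2
    · have h3 := dec 1 X L hX hL1 p.1 p.2 hp.1 hp.2
      refine (hFn p).trans ?_
      have hp1 : (1 : ℝ) ≤ p.1 := by exact_mod_cast hp.1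
      have hp2 : (1 : ℝ) ≤ p.2 := by exact_mod_cast hp.2
      have hS1 : 1 ≤ X + p.1 + p.2 := by linarith
      have h5 : |Real.log η| + X + p.2 + |c0| ≤ D * (X + p.1 + p.2) ^ 1 := by
        have e1 : |Real.log η| ≤ |Real.log η| * (X + p.1 + p.2) :=
          le_mul_of_one_le_right (abs_nonneg _) hS1
        have e2 : |c0| ≤ |c0| * (X + p.1 + p.2) := le_mul_of_one_le_right (abs_nonneg _) hS1
        rw [pow_one, hD]
        linarith
      calc X * Bd p ≤ X * (K * ((m₁ : ℝ) * m₂) ^ 4 * (CG * (CV *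
            Real.exp (-((p.1 : ℝ) ^ 2 * p.2 / L))) * (D * (X + p.1 + p.2) ^ 1))) := by
            rw [hBd]
            simp only
            gcongr
        _ = X * (K * ((m₁ : ℝ) * m₂) ^ 4 * (CG * CV * D)) * ((X + p.1 + p.2) ^ 1 *
            Real.exp (-((p.1 : ℝ) ^ 2 * p.2 / L))) := by ring
        _ ≤ X * (K * ((m₁ : ℝ) * m₂) ^ 4 * (CG * CV * D)) * _ :=
            mul_le_mul_of_nonneg_left h3 (by positivity)
        _ = _ := by ring
    · rw [hzero p hp]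
      simp only [Pi.zero_apply, norm_zero, integral_zero]
      positivity
  have hmain := hasSum_integral_of_summable_integral_norm hFi hsum
  rw [integral_congr_ae (Eventually.of_forall h1), ← hmain.tsum_eq, ← tsum_mul_left]
  exact tsum_congr h2

/-- the sum over the discriminants -/
lemma Inn_eq' (G : ℝ → ℝ) (η : ℝ) (hη : 0 < η) (hG : ∀ u, u ∉ Icc η 1 → G u = 0)
    (hVK : T_VK) (hHZ : T_HZ)
    (q n : ℕ) (K : ℝ) (hn : 1 ≤ n) (X : ℝ) (hX : 1 ≤ X) (m₁ m₂ : ℕ)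
    (w : ℕ → ℕ → ℤ → ℤ → ℝ) (hw : WD q K w) (hm1 : m₁ ≠ 0) (hm2 : m₂ ≠ 0)
    (h1 : (m₁ : ℝ) ≤ X) (h2 : (m₂ : ℝ) ≤ X) :
    ∑' Δ : ℕ, G (Δ / X) * ∑' p : ℕ × ℕ, trm n m₁ m₂ w Δ p.1 p.2 =
      ∑' p : ℕ × ℕ, Inn G X n m₁ m₂ w p.1 p.2 := by
  obtain ⟨CV, hCV, hV, -⟩ := hVK
  obtain ⟨CZ, k, hCZ, hZ⟩ := zf_bound hHZ
  have hK : 0 ≤ K := (abs_nonneg _).trans (hw.bd 0 0 0 0)
  have hX0 : 0 < X := by linarith
  set L : ℝ := (n : ℝ) * m₁ * m₂ * Real.sqrt X with hL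
  have hL1 : 1 ≤ L := by
    have e1 : (1 : ℝ) ≤ n := by exact_mod_cast hn
    have e2 : (1 : ℝ) ≤ m₁ := by exact_mod_cast Nat.pos_of_ne_zero hm1
    have e3 : (1 : ℝ) ≤ m₂ := by exact_mod_cast Nat.pos_of_ne_zero hm2
    have e4 : 1 ≤ Real.sqrt X := by rw [Real.one_le_sqrt]; exact hX
    rw [hL]
    exact one_le_mul_of_one_le_of_one_le (one_le_mul_of_one_le_of_one_le
      (one_le_mul_of_one_le_of_one_le e1 e2) e3) e4
  have hout : ∀ Δ : ℕ, Δ ∉ Finset.range (⌊X⌋₊ + 1) → G ((Δ : ℝ) / X) = 0 := by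
    intro Δ hΔ
    rw [Finset.mem_range] at hΔ
    apply hG
    intro hu
    have h3 : (Δ : ℝ) ≤ X := by
      have := hu.2
      rwa [div_le_one hX0] at this
    have h4 : Δ ≤ ⌊X⌋₊ := Nat.le_floor h3
    omega
  have hsum : ∀ Δ : ℕ, Summable (fun p : ℕ × ℕ => G ((Δ : ℝ) / X) * trm n m₁ m₂ w Δ p.1 p.2) := by
    intro Δ
    by_cases hu : ((Δ : ℝ) / X) ∈ Icc η 1
    · have hΔ0 : (0 : ℝ) < Δ := by
        have := lt_of_lt_of_le hη hu.1
        by_contra hcon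
        push Not at hcon
        have : (Δ : ℝ) / X ≤ 0 := div_nonpos_of_nonpos_of_nonneg hcon hX0.le
        linarith
      have hΔ1 : (1 : ℝ) ≤ Δ := by
        have : 0 < Δ := by exact_mod_cast hΔ0
        exact_mod_cast this
      have hΔX : (Δ : ℝ) ≤ X := by
        have := hu.2
        rwa [div_le_one hX0] at this
      apply Summable.mul_left
      apply Summable.of_norm
      refine Summable.of_nonneg_of_le (fun p => norm_nonneg _) ?_
        (sum_sq.mul_left ((2 * (CV * K * (X * X) ^ 4 * CZ)) *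
          (X ^ (1 + k) * (3 * ((1 + k + 2).factorial * (2 * L) ^ (1 + k + 2))) ^ 2)))
      intro p
      by_cases hp : 1 ≤ p.1 ∧ 1 ≤ p.2
      · have h3 := dec (1 + k) X L hX hL1 p.1 p.2 hp.1 hp.2
        have h4 := trm_bound CV CZ k hCV hCZ hV hZ q n K hn X hX m₁ m₂ w p.1 p.2 hw hm1 hm2
          hp.1 hp.2 h1 h2 Δ hΔ1 hΔX
        rw [Real.norm_eq_abs]
        refine h4.trans ?_
        have hp1 : (1 : ℝ) ≤ p.1 := by exact_mod_cast hp.1
        have hp2 : (1 : ℝ) ≤ p.2 := by exact_mod_cast hp.2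
        have h5 : (p.2 : ℝ) * (p.2 + X) ^ k ≤ (X + p.1 + p.2) ^ (1 + k) := by
          rw [pow_add, pow_one]
          apply mul_le_mul (by linarith) _ (by positivity) (by positivity)
          exact pow_le_pow_left₀ (by positivity) (by linarith) k
        calc (2 * (p.2 : ℝ)) * (CV * Real.exp (-((p.1 : ℝ) ^ 2 * p.2 / L)) * K * (X * X) ^ 4 *
              (CZ * (p.2 + X) ^ k))
            = (2 * (CV * K * (X * X) ^ 4 * CZ)) * ((p.2 * (p.2 + X) ^ k) *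
              Real.exp (-((p.1 : ℝ) ^ 2 * p.2 / L))) := by ring
          _ ≤ (2 * (CV * K * (X * X) ^ 4 * CZ)) * ((X + p.1 + p.2) ^ (1 + k) *
              Real.exp (-((p.1 : ℝ) ^ 2 * p.2 / L))) := by gcongr
          _ ≤ (2 * (CV * K * (X * X) ^ 4 * CZ)) * _ :=
              mul_le_mul_of_nonneg_left h3 (by positivity)
          _ = _ := by ring
      · have h0 : trm n m₁ m₂ w Δ p.1 p.2 = 0 := by
          rcases Nat.eq_zero_or_pos p.1 with h | h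
          · rw [h, trm_zero_left]
          · rcases Nat.eq_zero_or_pos p.2 with h' | h'
            · rw [h', trm_zero_right]
            · exact absurd ⟨h, h'⟩ hp
        rw [h0, norm_zero]
        positivity
    · rw [hG _ hu]
      simp only [zero_mul]
      exact summable_zero
  rw [tsum_eq_sum (s := Finset.range (⌊X⌋₊ + 1)) (fun Δ hΔ => by rw [hout Δ hΔ, zero_mul])]
  have h3 : ∀ Δ ∈ Finset.range (⌊X⌋₊ + 1), G ((Δ : ℝ) / X) *
      ∑' p : ℕ × ℕ, trm n m₁ m₂ w Δ p.1 p.2 =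
      ∑' p : ℕ × ℕ, G ((Δ : ℝ) / X) * trm n m₁ m₂ w Δ p.1 p.2 := fun Δ _ => tsum_mul_left.symm
  rw [Finset.sum_congr rfl h3, ← Summable.tsum_finsetSum (fun Δ _ => hsum Δ)]
  refine tsum_congr fun p => ?_
  unfold Inn
  rw [tsum_eq_sum (s := Finset.range (⌊X⌋₊ + 1)) (fun Δ hΔ => by rw [hout Δ hΔ, zero_mul])]
  rfl

lemma Inn_zero (G : ℝ → ℝ) (X : ℝ) (n m₁ m₂ : ℕ) (w : ℕ → ℕ → ℤ → ℤ → ℝ) (e A : ℕ)
    (h : ¬ (1 ≤ e ∧ 1 ≤ A)) : Inn G X n m₁ m₂ w e A = 0 := by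
  have h0 : ∀ Δ : ℕ, trm n m₁ m₂ w Δ e A = 0 := by
    intro Δ
    rcases Nat.eq_zero_or_pos e with h1 | h1
    · rw [h1, trm_zero_left]
    · rcases Nat.eq_zero_or_pos A with h' | h'
      · rw [h', trm_zero_right]
      · exact absurd ⟨h1, h'⟩ h
  unfold Inn
  have h1 : ∀ Δ : ℕ, G ((Δ : ℝ) / X) * ∑ B ∈ (Finset.range (2 * A)).filter
      (fun B => 4 * A ∣ B ^ 2 + Δ),
      Vk ((e : ℝ) ^ 2 * A / ((n : ℝ) * m₁ * m₂ * Real.sqrt Δ)) / Real.sqrt ((e : ℝ) ^ 2 * A) *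
      w e A B (((B ^ 2 + Δ) / (4 * A) : ℕ) : ℤ) *
      Nw m₁ m₂ A B (((B ^ 2 + Δ) / (4 * A) : ℕ) : ℤ) e * zf A B Δ = 0 := by
    intro Δ
    have := h0 Δ
    unfold trm at this
    rw [this, mul_zero]
  rw [tsum_congr h1, tsum_zero]

lemma Mai_zero (G : ℝ → ℝ) (X : ℝ) (q n m₁ m₂ : ℕ) (w : ℕ → ℕ → ℤ → ℤ → ℝ) (e A : ℕ)
    (h : ¬ (1 ≤ e ∧ 1 ≤ A)) : Mai G X q n m₁ m₂ w e A = 0 := by
  have h0 : (e : ℝ) ^ 2 * A = 0 := by
    rcases Nat.eq_zero_or_pos e with h1 | h1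
    · rw [h1]; simp
    · rcases Nat.eq_zero_or_pos A with h' | h'
      · rw [h']; simp
      · exact absurd ⟨h1, h'⟩ h
  unfold Mai
  simp [h0]

/-- the error terms are small -/
lemma err_small (n b : ℕ) (C δ S : ℝ) (hδ : 0 < δ) : ∀ᶠ X : ℝ in atTop,
    ((2 * (n : ℝ)) ^ 4 * X ^ (-6 : ℝ) + C * (X ^ b * (3 * ((b + 2).factorial *
      (2 * (2 * (n * X))) ^ (b + 2))) ^ 2) * Real.exp (-(X ^ (δ / 2) / 2))) * S ≤
      X ^ (-1 : ℝ) := by
  have h1 : Tendsto (fun X : ℝ => X ^ (-5 : ℝ)) atTop (𝓝 0) := by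
    have := tendsto_rpow_neg_atTop (y := (5 : ℝ)) (by norm_num)
    exact this
  have h2 : Tendsto (fun X : ℝ => X ^ (3 * b + 5) * Real.exp (-(X ^ (δ / 2) / 2))) atTop (𝓝 0) := by
    have h3 := tendsto_rpow_mul_exp_neg_mul_atTop_nhds_zero ((3 * (b : ℝ) + 5) * 2 / δ) (1 / 2)
      (by norm_num)
    have h4 := h3.comp (tendsto_rpow_atTop (half_pos hδ))
    refine h4.congr' ?_
    filter_upwards [eventually_gt_atTop (0 : ℝ)] with X hX
    simp only [Function.comp_apply]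
    rw [← Real.rpow_mul hX.le, show δ / 2 * ((3 * (b : ℝ) + 5) * 2 / δ) = ((3 * b + 5 : ℕ) : ℝ) by
      push_cast
      field_simp, Real.rpow_natCast]
    congr 2
    ring
  set a1 : ℝ := (2 * (n : ℝ)) ^ 4 * S with ha1
  set a2 : ℝ := C * (3 * ((b + 2).factorial * (4 * (n : ℝ)) ^ (b + 2))) ^ 2 * S with ha2
  have h3 := ((h1.const_mul a1).add (h2.const_mul a2))
  rw [mul_zero, mul_zero, add_zero] at h3
  have h4 := h3.eventually (eventually_lt_nhds (show (0 : ℝ) < 1 by norm_num))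
  filter_upwards [h4, eventually_gt_atTop (0 : ℝ)] with X hX hX0
  have h5 : ((2 * (n : ℝ)) ^ 4 * X ^ (-6 : ℝ) + C * (X ^ b * (3 * ((b + 2).factorial *
      (2 * (2 * (n * X))) ^ (b + 2))) ^ 2) * Real.exp (-(X ^ (δ / 2) / 2))) * S =
      (a1 * X ^ (-5 : ℝ) + a2 * (X ^ (3 * b + 5) * Real.exp (-(X ^ (δ / 2) / 2)))) *
      X ^ (-1 : ℝ) := by
    have e1 : X ^ (-6 : ℝ) = X ^ (-5 : ℝ) * X ^ (-1 : ℝ) := by
      rw [← Real.rpow_add hX0]
      norm_num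
    have e2 : X ^ (3 * b + 5) * X ^ (-1 : ℝ) = X ^ b * (X ^ (b + 2)) ^ 2 := by
      rw [Real.rpow_neg_one]
      field_simp
      ring
    have e3 : (2 * (2 * ((n : ℝ) * X))) ^ (b + 2) = (4 * (n : ℝ)) ^ (b + 2) * X ^ (b + 2) := by
      rw [← mul_pow]
      ring
    rw [e1, e3, ha1, ha2]
    linear_combination (-(C * (3 * ((b + 2).factorial * (4 * (n : ℝ)) ^ (b + 2))) ^ 2 * S *
      Real.exp (-(X ^ (δ / 2) / 2)))) * e2
  rw [h5]
  have h6 : 0 < X ^ (-1 : ℝ) := Real.rpow_pos_of_pos hX0 _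
  nlinarith

/-- (AVG) the average of the unfolded second moment over the discriminant. -/
theorem pf_AVG (hINN : T_INN) (hTAI : T_TAI) (hVK : T_VK) (hHZ : T_HZ) : T_AVG := by
  intro G η hη hGs hG q n K δ hq hn hδ hδ1
  obtain ⟨X₀, hI⟩ := hINN G η hη hGs hG q n K δ hq hn hδ hδ1
  obtain ⟨C, b, hC, hT⟩ := hTAI G η hη hGs hG q n K hq hn
  set S : ℝ := ∑' p : ℕ × ℕ, (1 / (1 + (p.1 : ℝ)) ^ 2) * (1 / (1 + (p.2 : ℝ)) ^ 2) with hS
  obtain ⟨X₁, hX₁⟩ := eventually_atTop.1 (err_small n b C δ S hδ)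
  refine ⟨max (max X₀ X₁) 1, ?_⟩
  intro X hX m₁ m₂ w hw hs1 hs2 hc1 hc2 h1 h2
  have hX1 : 1 ≤ X := (le_max_right _ _).trans hX
  have hXX₀ : X₀ ≤ X := ((le_max_left _ _).trans (le_max_left _ _)).trans hX
  have hXX₁ : X₁ ≤ X := ((le_max_right _ _).trans (le_max_left _ _)).trans hX
  have hX0 : 0 < X := by linarith
  have hm1 : m₁ ≠ 0 := hs1.ne_zero
  have hm2 : m₂ ≠ 0 := hs2.ne_zero
  have hXr : X ^ (1 / 4 - δ) ≤ X := by
    calc X ^ (1 / 4 - δ) ≤ X ^ (1 : ℝ) := Real.rpow_le_rpow_of_exponent_le hX1 (by linarith)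
      _ = X := Real.rpow_one X
  have h1' : (m₁ : ℝ) ≤ X := h1.trans hXr
  have h2' : (m₂ : ℝ) ≤ X := h2.trans hXr
  have hn1 : (1 : ℝ) ≤ n := by exact_mod_cast hn
  have hm1r : (1 : ℝ) ≤ m₁ := by exact_mod_cast Nat.pos_of_ne_zero hm1
  have hm2r : (1 : ℝ) ≤ m₂ := by exact_mod_cast Nat.pos_of_ne_zero hm2
  have hy0 : 0 < (n : ℝ) * m₁ * m₂ := by positivity
  have hyX : (n : ℝ) * m₁ * m₂ ≤ n * X ^ (1 / 2 - 2 * δ) := by
    calc (n : ℝ) * m₁ * m₂ = n * (m₁ * m₂) := by ring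
      _ ≤ n * (X ^ (1 / 4 - δ) * X ^ (1 / 4 - δ)) := by
          apply mul_le_mul_of_nonneg_left _ (by positivity)
          exact mul_le_mul h1 h2 (by positivity) (by positivity)
      _ = n * X ^ (1 / 2 - 2 * δ) := by
          rw [← Real.rpow_add hX0]
          congr 2
          ring
  have hnX1 : 1 ≤ (n : ℝ) * X := one_le_mul_of_one_le_of_one_le hn1 hX1
  have hL1 : 1 ≤ 2 * ((n : ℝ) * X) := by linarith
  have hyL : (n : ℝ) * m₁ * m₂ * Real.sqrt X ≤ n * X := by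
    calc (n : ℝ) * m₁ * m₂ * Real.sqrt X ≤ n * X ^ (1 / 2 - 2 * δ) * X ^ (1 / 2 : ℝ) := by
          rw [Real.sqrt_eq_rpow]
          exact mul_le_mul_of_nonneg_right hyX (by positivity)
      _ = n * X ^ (1 / 2 - 2 * δ + 1 / 2) := by rw [Real.rpow_add hX0]; ring
      _ ≤ n * X ^ (1 : ℝ) := by
          apply mul_le_mul_of_nonneg_left _ (by positivity)
          exact Real.rpow_le_rpow_of_exponent_le hX1 (by linarith)
      _ = n * X := by rw [Real.rpow_one]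
  have hyM : (n : ℝ) * m₁ * m₂ * X ^ (1 / 2 + δ / 2) ≤ n * X := by
    calc (n : ℝ) * m₁ * m₂ * X ^ (1 / 2 + δ / 2) ≤ n * X ^ (1 / 2 - 2 * δ) * X ^ (1 / 2 + δ / 2) :=
          mul_le_mul_of_nonneg_right hyX (by positivity)
      _ = n * X ^ ((1 / 2 - 2 * δ) + (1 / 2 + δ / 2)) := by
          rw [Real.rpow_add hX0 (1 / 2 - 2 * δ) (1 / 2 + δ / 2)]
          ring
      _ ≤ n * X ^ (1 : ℝ) := by
          apply mul_le_mul_of_nonneg_left _ (by positivity)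
          exact Real.rpow_le_rpow_of_exponent_le hX1 (by linarith)
      _ = n * X := by rw [Real.rpow_one]
  -- the pointwise bounds
  have hall : ∀ p : ℕ × ℕ, |Inn G X n m₁ m₂ w p.1 p.2| + |Mai G X q n m₁ m₂ w p.1 p.2| ≤
      C * (X ^ b * (3 * ((b + 2).factorial * (2 * (2 * (n * X))) ^ (b + 2))) ^ 2) *
        ((1 / (1 + (p.1 : ℝ)) ^ 2) * (1 / (1 + (p.2 : ℝ)) ^ 2)) := by
    intro p
    by_cases hp : 1 ≤ p.1 ∧ 1 ≤ p.2
    · have h3 := hT X hX1 m₁ m₂ w p.1 p.2 hw hs1 hs2 hp.1 hp.2 h1' h2'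
      have h4 := dec b X (2 * (n * X)) hX1 hL1 p.1 p.2 hp.1 hp.2
      refine h3.trans ?_
      have h5 : (p.1 : ℝ) ^ 2 * p.2 / (2 * (n * X)) ≤
          (p.1 : ℝ) ^ 2 * p.2 / ((n : ℝ) * m₁ * m₂ * Real.sqrt X) := by
        apply div_le_div_of_nonneg_left (by positivity) (by positivity)
        linarith
      calc C * (X + p.1 + p.2) ^ b *
            Real.exp (-((p.1 : ℝ) ^ 2 * p.2 / ((n : ℝ) * m₁ * m₂ * Real.sqrt X)))
          ≤ C * (X + p.1 + p.2) ^ b * Real.exp (-((p.1 : ℝ) ^ 2 * p.2 / (2 * (n * X)))) := by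
            apply mul_le_mul_of_nonneg_left _ (by positivity)
            apply Real.exp_le_exp.2
            linarith
        _ = C * ((X + p.1 + p.2) ^ b * Real.exp (-((p.1 : ℝ) ^ 2 * p.2 / (2 * (n * X))))) := by
            ring
        _ ≤ C * _ := mul_le_mul_of_nonneg_left h4 hC.le
        _ = _ := by ring
    · rw [Inn_zero _ _ _ _ _ _ _ _ hp, Mai_zero _ _ _ _ _ _ _ _ _ hp, abs_zero, add_zero]
      positivity
  have hsI : Summable (fun p : ℕ × ℕ => Inn G X n m₁ m₂ w p.1 p.2) := by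
    apply Summable.of_norm
    refine Summable.of_nonneg_of_le (fun p => norm_nonneg _) (fun p => ?_) (sum_sq.mul_left
      (C * (X ^ b * (3 * ((b + 2).factorial * (2 * (2 * (n * X))) ^ (b + 2))) ^ 2)))
    rw [Real.norm_eq_abs]
    have := hall p
    have := abs_nonneg (Mai G X q n m₁ m₂ w p.1 p.2)
    linarith
  have hsM : Summable (fun p : ℕ × ℕ => Mai G X q n m₁ m₂ w p.1 p.2) := by
    apply Summable.of_norm
    refine Summable.of_nonneg_of_le (fun p => norm_nonneg _) (fun p => ?_) (sum_sq.mul_left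
      (C * (X ^ b * (3 * ((b + 2).factorial * (2 * (2 * (n * X))) ^ (b + 2))) ^ 2)))
    rw [Real.norm_eq_abs]
    have := hall p
    have := abs_nonneg (Inn G X n m₁ m₂ w p.1 p.2)
    linarith
  have hpt : ∀ p : ℕ × ℕ, ‖Inn G X n m₁ m₂ w p.1 p.2 - Mai G X q n m₁ m₂ w p.1 p.2‖ ≤
      ((2 * (n : ℝ)) ^ 4 * X ^ (-6 : ℝ) + C * (X ^ b * (3 * ((b + 2).factorial *
      (2 * (2 * (n * X))) ^ (b + 2))) ^ 2) * Real.exp (-(X ^ (δ / 2) / 2))) *
        ((1 / (1 + (p.1 : ℝ)) ^ 2) * (1 / (1 + (p.2 : ℝ)) ^ 2)) := by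
    intro p
    rw [Real.norm_eq_abs]
    by_cases hp : 1 ≤ p.1 ∧ 1 ≤ p.2
    · have hp1 : (1 : ℝ) ≤ p.1 := by exact_mod_cast hp.1
      have hp2 : (1 : ℝ) ≤ p.2 := by exact_mod_cast hp.2
      by_cases hr : (p.1 : ℝ) ^ 2 * p.2 ≤ n * m₁ * m₂ * X ^ (1 / 2 + δ / 2)
      · refine (hI X hXX₀ m₁ m₂ w p.1 p.2 hw hs1 hs2 hc1 hc2 h1 h2 hp.1 hp.2 hr).trans ?_
        have hr2 : (p.1 : ℝ) ^ 2 * p.2 ≤ n * X := hr.trans hyM
        have e1 : (p.1 : ℝ) ≤ n * X := by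
          refine le_trans ?_ hr2
          nlinarith
        have e2 : (p.2 : ℝ) ≤ n * X := by
          refine le_trans ?_ hr2
          exact le_mul_of_one_le_left (by linarith) (one_le_pow₀ hp1)
        have e3 : (1 + (p.1 : ℝ)) ^ 2 * (1 + (p.2 : ℝ)) ^ 2 ≤ (2 * (n * X)) ^ 4 := by
          calc (1 + (p.1 : ℝ)) ^ 2 * (1 + (p.2 : ℝ)) ^ 2 ≤ (2 * (n * X)) ^ 2 * (2 * (n * X)) ^ 2 := by
                apply mul_le_mul _ _ (by positivity) (by positivity)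
                · exact pow_le_pow_left₀ (by positivity) (by linarith) 2
                · exact pow_le_pow_left₀ (by positivity) (by linarith) 2
            _ = (2 * (n * X)) ^ 4 := by ring
        have e4 : X ^ (-10 : ℝ) * X ^ 4 = X ^ (-6 : ℝ) := by
          rw [← Real.rpow_natCast X 4, ← Real.rpow_add hX0]
          norm_num
        have e5 : X ^ (-10 : ℝ) ≤ (2 * (n : ℝ)) ^ 4 * X ^ (-6 : ℝ) *
            ((1 / (1 + (p.1 : ℝ)) ^ 2) * (1 / (1 + (p.2 : ℝ)) ^ 2)) := by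
          rw [← e4, one_div_mul_one_div, mul_one_div, le_div_iff₀ (by positivity)]
          calc X ^ (-10 : ℝ) * ((1 + (p.1 : ℝ)) ^ 2 * (1 + (p.2 : ℝ)) ^ 2)
              ≤ X ^ (-10 : ℝ) * (2 * (n * X)) ^ 4 := mul_le_mul_of_nonneg_left e3 (by positivity)
            _ = _ := by ring
        refine e5.trans ?_
        apply mul_le_mul_of_nonneg_right _ (by positivity)
        have : 0 ≤ C * (X ^ b * (3 * ((b + 2).factorial *
          (2 * (2 * (n * X))) ^ (b + 2))) ^ 2) * Real.exp (-(X ^ (δ / 2) / 2)) := by positivity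
        linarith
      · push Not at hr
        have h3 := hT X hX1 m₁ m₂ w p.1 p.2 hw hs1 hs2 hp.1 hp.2 h1' h2'
        have h4 := dec b X (2 * (n * X)) hX1 hL1 p.1 p.2 hp.1 hp.2
        have hz : X ^ (δ / 2) ≤ (p.1 : ℝ) ^ 2 * p.2 / ((n : ℝ) * m₁ * m₂ * Real.sqrt X) := by
          rw [le_div_iff₀ (by positivity)]
          refine le_trans (le_of_eq ?_) hr.le
          rw [Real.rpow_add hX0, Real.sqrt_eq_rpow]
          ring
        have hz2 : (p.1 : ℝ) ^ 2 * p.2 / (2 * (n * X)) ≤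
            (p.1 : ℝ) ^ 2 * p.2 / ((n : ℝ) * m₁ * m₂ * Real.sqrt X) / 2 := by
          rw [div_div]
          apply div_le_div_of_nonneg_left (by positivity) (by positivity)
          linarith
        calc |Inn G X n m₁ m₂ w p.1 p.2 - Mai G X q n m₁ m₂ w p.1 p.2|
            ≤ |Inn G X n m₁ m₂ w p.1 p.2| + |Mai G X q n m₁ m₂ w p.1 p.2| := abs_sub _ _
          _ ≤ C * (X + p.1 + p.2) ^ b *
            Real.exp (-((p.1 : ℝ) ^ 2 * p.2 / ((n : ℝ) * m₁ * m₂ * Real.sqrt X))) := h3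
          _ ≤ C * (X + p.1 + p.2) ^ b *
            Real.exp (-((p.1 : ℝ) ^ 2 * p.2 / (2 * (n * X))) + -(X ^ (δ / 2) / 2)) := by
              apply mul_le_mul_of_nonneg_left _ (by positivity)
              apply Real.exp_le_exp.2
              linarith
          _ = C * ((X + p.1 + p.2) ^ b * Real.exp (-((p.1 : ℝ) ^ 2 * p.2 / (2 * (n * X))))) *
            Real.exp (-(X ^ (δ / 2) / 2)) := by
              rw [Real.exp_add]
              ring
          _ ≤ C * (X ^ b * (3 * ((b + 2).factorial * (2 * (2 * (n * X))) ^ (b + 2))) ^ 2 *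
            ((1 / (1 + (p.1 : ℝ)) ^ 2) * (1 / (1 + (p.2 : ℝ)) ^ 2))) *
            Real.exp (-(X ^ (δ / 2) / 2)) := by
              apply mul_le_mul_of_nonneg_right _ (Real.exp_pos _).le
              exact mul_le_mul_of_nonneg_left h4 hC.le
          _ = C * (X ^ b * (3 * ((b + 2).factorial * (2 * (2 * (n * X))) ^ (b + 2))) ^ 2) *
            Real.exp (-(X ^ (δ / 2) / 2)) *
            ((1 / (1 + (p.1 : ℝ)) ^ 2) * (1 / (1 + (p.2 : ℝ)) ^ 2)) := by ring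
          _ ≤ _ := by
              apply mul_le_mul_of_nonneg_right _ (by positivity)
              have : 0 ≤ (2 * (n : ℝ)) ^ 4 * X ^ (-6 : ℝ) := by positivity
              linarith
    · rw [Inn_zero _ _ _ _ _ _ _ _ hp, Mai_zero _ _ _ _ _ _ _ _ _ hp, sub_zero, abs_zero]
      positivity
  have hUS : ∀ Δ : ℕ, G ((Δ : ℝ) / X) * US Δ (fun Q e => Vk ((e : ℝ) ^ 2 * Q.1 /
          ((n : ℝ) * m₁ * m₂ * Real.sqrt Δ)) / Real.sqrt ((e : ℝ) ^ 2 * Q.1) *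
          w e Q.1.toNat Q.2.1 Q.2.2 * Nw m₁ m₂ Q.1.toNat Q.2.1 Q.2.2 e)
          (fun Q => zf Q.1 Q.2.1 Δ) = G ((Δ : ℝ) / X) *
          ∑' p : ℕ × ℕ, trm n m₁ m₂ w Δ p.1 p.2 := by
    intro Δ
    rw [US_eq]
  rw [tsum_congr hUS, Mn_eq G η hη hGs hG hVK q n K hq hn X hX1 m₁ m₂ w hw hm1 hm2,
    Inn_eq' G η hη hG hVK hHZ q n K hn X hX1 m₁ m₂ w hw hm1 hm2 h1' h2',
    ← Summable.tsum_sub hsI hsM, ← Real.norm_eq_abs]
  exact (tsum_of_norm_bounded (sum_sq.hasSum.mul_left _) hpt).trans (hX₁ X hXX₁)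

end Pool.Agent.H39.CN
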